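import Pool.Agent.Lib.MP_1a3405_co.UB.Avg

/-!
# MP_1a3405_co, upper bound: the inequality (*)

`star`: `d ≥ 4`, `m ≥ d` (`K = m + 2`), `S` a finite connected set of vertices of a graph with
injective coordinates in `ℤ^d` whose edges are unit steps, `x, y ∈ S`: there is a walk in `S` from
`x` to `y` with `m * length + (m + 2) ≤ ∑_{u ∈ S} (m + 2 - deg_S u)^+`.
-/

namespace Pool.Agent.MP1a3405.UB

set_option linter.unusedSectionVars false

open Finset Relation

variable {V : Type*} [DecidableEq V] {d : ℕ} {G : SimpleGraph V} {c : V → Fin d → ℤ}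
  {S : Finset V}

/-- the cost of `S` -/
noncomputable def FF (G : SimpleGraph V) (m : ℕ) (S : Finset V) : ℝ :=
  ∑ u ∈ S, max ((m : ℝ) + 2 - dg G S u) 0

theorem dg_erase {v u : V} (hv : v ∈ S) [Decidable (G.Adj u v)] :
    dg G (S.erase v) u + (if G.Adj u v then 1 else 0) = dg G S u := by
  classical
  unfold dg
  have h : S = insert v (S.erase v) := (insert_erase hv).symm
  conv_rhs => rw [h]
  rw [filter_insert]
  split_ifs with h1
  · rw [card_insert_of_notMem]
    simp
  · simp

theorem sum_adj {v : V} [DecidablePred fun u => G.Adj u v] :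
    ∑ u ∈ S.erase v, (if G.Adj u v then (1 : ℝ) else 0) = dg G S v := by
  classical
  unfold dg
  rw [← sum_filter, sum_const, nsmul_eq_mul, mul_one]
  congr 1
  have : (S.erase v).filter (fun u => G.Adj u v) = S.filter (fun u => G.Adj v u) := by
    ext u
    rw [mem_filter, mem_filter, mem_erase]
    constructor
    · rintro ⟨⟨_, h2⟩, h3⟩
      exact ⟨h2, h3.symm⟩
    · rintro ⟨h2, h3⟩
      exact ⟨⟨fun h => G.loopless.irrefl v (by rw [h] at h3; exact h3), h2⟩, h3.symm⟩
  rw [this]

/-- deleting a vertex -/
theorem FF_erase (m : ℕ) {v : V} (hv : v ∈ S) :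
    FF G m (S.erase v) + max ((m : ℝ) + 2 - dg G S v) 0 ≤ FF G m S + dg G S v := by
  classical
  unfold FF
  rw [← add_sum_erase S _ hv, ← sum_adj (G := G) (S := S) (v := v)]
  have h : ∑ u ∈ S.erase v, max ((m : ℝ) + 2 - dg G (S.erase v) u) 0 ≤
      ∑ u ∈ S.erase v, (max ((m : ℝ) + 2 - dg G S u) 0 + (if G.Adj u v then (1 : ℝ) else 0)) := by
    refine sum_le_sum fun u _ => ?_
    have h1 := dg_erase (G := G) (u := u) hv
    have h2 : (dg G S u : ℝ) = dg G (S.erase v) u + (if G.Adj u v then (1 : ℝ) else 0) := by
      rw [← h1]; push_cast; split_ifs <;> simp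
    rw [h2]
    split_ifs
    · rcases le_total 0 ((m : ℝ) + 2 - (dg G (S.erase v) u + 1)) with h3 | h3
      · rw [max_eq_left h3, max_eq_left (by linarith)]; linarith
      · rw [max_eq_right h3]
        exact max_le (by linarith) (by norm_num)
    · rw [add_zero, add_zero]
  rw [sum_add_distrib] at h
  linarith

theorem conn_of_center {H : Finset V} {v : V} (h : ∀ u ∈ H, Rch G H u v) : Conn G H :=
  fun a ha b hb => (h a ha).trans (h b hb).symm

/-- the component of `a` in `S - v` together with `v` -/
theorem conn_left (hc : Conn G S) {v a : V} (hv : v ∈ S) (ha : a ∈ S.erase v) :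
    Conn G (insert v (comp G (S.erase v) a)) := by
  refine conn_of_center (v := v) fun u hu => ?_
  rw [mem_insert] at hu
  rcases hu with rfl | hu
  · exact Rch.refl (mem_insert_self _ _)
  · obtain ⟨a', ha', hr⟩ := exists_last (hc a (mem_of_mem_erase ha) v hv) (ne_of_mem_erase ha)
    have h1 : Rch G (comp G (S.erase v) a) u a' := conn_comp a u hu a' (mem_comp.2 hr)
    exact (h1.mono (subset_insert _ _)).trans
      (Rch.adj ha' (mem_insert_of_mem (mem_comp.2 hr)) (mem_insert_self _ _))

/-- `S` without the component of `a` in `S - v` -/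
theorem conn_right (hc : Conn G S) {v a : V} (hv : v ∈ S) :
    Conn G (S \ comp G (S.erase v) a) := by
  have hv' : v ∈ S \ comp G (S.erase v) a := by
    rw [mem_sdiff]
    exact ⟨hv, fun h => (notMem_erase v S) (comp_subset a h)⟩
  refine conn_of_center (v := v) fun u hu => ?_
  by_cases huv : u = v
  · subst huv; exact Rch.refl hv'
  · rw [mem_sdiff] at hu
    obtain ⟨a', ha', hr⟩ := exists_last (hc u hu.1 v hv) huv
    have hsub : comp G (S.erase v) u ⊆ S \ comp G (S.erase v) a := by
      intro z hz
      rw [mem_sdiff]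
      refine ⟨mem_of_mem_erase (comp_subset u hz), fun h => hu.2 ?_⟩
      exact mem_comp.2 ((mem_comp.1 h).trans (mem_comp.1 hz).symm)
    have h1 : Rch G (comp G (S.erase v) u) u a' :=
      conn_comp u u (mem_comp.2 (Rch.refl (mem_erase.2 ⟨huv, hu.1⟩))) a' (mem_comp.2 hr)
    exact (h1.mono hsub).trans (Rch.adj ha' (hsub (mem_comp.2 hr)) hv')

/-- the cost of the two parts at a vertex `v` -/
theorem FF_split (m : ℕ) {v a : V} (hv : v ∈ S) :
    FF G m (insert v (comp G (S.erase v) a)) + FF G m (S \ comp G (S.erase v) a) ≤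
      FF G m S + (m + 2) := by
  classical
  set A := comp G (S.erase v) a with hA
  have hAS : A ⊆ S.erase v := comp_subset a
  have hvA : v ∉ A := fun h => (notMem_erase v S) (hAS h)
  have hv2 : v ∈ S \ A := mem_sdiff.2 ⟨hv, hvA⟩
  have hcl : ∀ u z, z ∈ A → u ∈ S → u ≠ v → G.Adj z u → u ∈ A := by
    intro u z hz hu huv h
    exact mem_comp.2 ((mem_comp.1 hz).trans (Rch.adj h (hAS hz) (mem_erase.2 ⟨huv, hu⟩)))
  have hd1 : ∀ u ∈ A, dg G (insert v A) u = dg G S u := by
    intro u hu
    unfold dg
    congr 1
    ext z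
    rw [mem_filter, mem_filter, mem_insert]
    constructor
    · rintro ⟨rfl | hz, h⟩
      · exact ⟨hv, h⟩
      · exact ⟨mem_of_mem_erase (hAS hz), h⟩
    · rintro ⟨hz, h⟩
      refine ⟨?_, h⟩
      by_cases hzv : z = v
      · exact Or.inl hzv
      · exact Or.inr (hcl z u hu hz hzv h)
  have hd2 : ∀ u ∈ (S \ A).erase v, dg G (S \ A) u = dg G S u := by
    intro u hu
    rw [mem_erase, mem_sdiff] at hu
    unfold dg
    congr 1
    ext z
    rw [mem_filter, mem_filter, mem_sdiff]
    constructor
    · rintro ⟨hz, h⟩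
      exact ⟨hz.1, h⟩
    · rintro ⟨hz, h⟩
      exact ⟨⟨hz, fun hzA => hu.2.2 (hcl u z hzA hu.2.1 hu.1 h.symm)⟩, h⟩
  have hd3 : dg G (insert v A) v + dg G (S \ A) v = dg G S v := by
    unfold dg
    rw [← card_union_of_disjoint]
    · congr 1
      ext z
      rw [mem_union, mem_filter, mem_filter, mem_filter, mem_insert, mem_sdiff]
      constructor
      · rintro (⟨rfl | hz, h⟩ | ⟨hz, h⟩)
        · exact ⟨hv, h⟩
        · exact ⟨mem_of_mem_erase (hAS hz), h⟩
        · exact ⟨hz.1, h⟩
      · rintro ⟨hz, h⟩
        by_cases hzA : z ∈ A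
        · exact Or.inl ⟨Or.inr hzA, h⟩
        · exact Or.inr ⟨⟨hz, hzA⟩, h⟩
    · rw [Finset.disjoint_left]
      intro z hz hz'
      rw [mem_filter, mem_insert] at hz
      rw [mem_filter, mem_sdiff] at hz'
      rcases hz with ⟨rfl | hz, h⟩
      · exact G.loopless.irrefl _ h
      · exact hz'.1.2 hz
  unfold FF
  rw [sum_insert hvA, sum_congr rfl fun u hu => by rw [hd1 u hu], ← add_sum_erase (S \ A) _ hv2,
    sum_congr (rfl : (S \ A).erase v = (S \ A).erase v) fun u hu => by rw [hd2 u hu]]
  have hS : ∑ u ∈ S, max ((m : ℝ) + 2 - dg G S u) 0 = ∑ u ∈ A, max ((m : ℝ) + 2 - dg G S u) 0 +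
      (max ((m : ℝ) + 2 - dg G S v) 0 + ∑ u ∈ (S \ A).erase v, max ((m : ℝ) + 2 - dg G S u) 0) := by
    rw [add_sum_erase (S \ A) (fun u => max ((m : ℝ) + 2 - dg G S u) 0) hv2]
    rw [← sum_sdiff (hAS.trans (erase_subset v S))]
    exact add_comm _ _
  rw [hS]
  have hd3' : (dg G S v : ℝ) = dg G (insert v A) v + dg G (S \ A) v := by
    rw [← hd3]; push_cast; ring
  rw [hd3']
  have h1 : (0 : ℝ) ≤ dg G (insert v A) v := Nat.cast_nonneg _
  have h2 : (0 : ℝ) ≤ dg G (S \ A) v := Nat.cast_nonneg _
  have h0 : (0 : ℝ) ≤ m := Nat.cast_nonneg _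
  have key : max ((m : ℝ) + 2 - dg G (insert v A) v) 0 + max ((m : ℝ) + 2 - dg G (S \ A) v) 0 ≤
      (m + 2) + max ((m : ℝ) + 2 - (dg G (insert v A) v + dg G (S \ A) v)) 0 := by
    rcases le_total 0 ((m : ℝ) + 2 - dg G (insert v A) v) with h3 | h3
    · rcases le_total 0 ((m : ℝ) + 2 - dg G (S \ A) v) with h4 | h4
      · rw [max_eq_left h3, max_eq_left h4]
        have := le_max_left ((m : ℝ) + 2 - (dg G (insert v A) v + dg G (S \ A) v)) 0
        linarith
      · rw [max_eq_left h3, max_eq_right h4]
        have := le_max_right ((m : ℝ) + 2 - (dg G (insert v A) v + dg G (S \ A) v)) 0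
        linarith
    · rw [max_eq_right h3]
      have h5 := le_max_right ((m : ℝ) + 2 - (dg G (insert v A) v + dg G (S \ A) v)) 0
      have h6 : max ((m : ℝ) + 2 - dg G (S \ A) v) 0 ≤ m + 2 := max_le (by linarith) (by linarith)
      linarith
  linarith

/-- the inequality (*) -/
theorem star (hL : Lat G c) (hinj : Function.Injective c) (hd : 4 ≤ d) {m : ℕ} (hm : d ≤ m) :
    ∀ (n : ℕ) (S : Finset V), S.card = n → ∀ x y : V, x ∈ S → y ∈ S → Conn G S →
    ∃ p : G.Walk x y, (∀ z ∈ p.support, z ∈ S) ∧
      (m : ℝ) * p.length + (m + 2) ≤ FF G m S := by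
  classical
  have hm4 : (4 : ℝ) ≤ m := by exact_mod_cast hd.trans hm
  intro n
  induction n using Nat.strong_induction_on with
  | _ n ih =>
    -- lower bound for the cost of a smaller connected set
    have hlow : ∀ H : Finset V, H.card < n → H.Nonempty → Conn G H → (m : ℝ) + 2 ≤ FF G m H := by
      intro H hH ⟨u, hu⟩ hHc
      obtain ⟨p, _, hp⟩ := ih _ hH H rfl u u hu hu hHc
      have : (0 : ℝ) ≤ m * p.length := by positivity
      linarith
    -- leaves
    have leaf : ∀ (S : Finset V), S.card = n → 2 ≤ n → ∀ x y : V, x ∈ S → y ∈ S → Conn G S →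
        Conn G (S.erase x) → dg G S x ≤ 1 → ∃ p : G.Walk x y, (∀ z ∈ p.support, z ∈ S) ∧
        (m : ℝ) * p.length + (m + 2) ≤ FF G m S := by
      intro S hn hn2 x y hx hy hc hcx hdx
      have h1 := FF_erase (G := G) m hx
      have hcard : (S.erase x).card < n := by
        rw [card_erase_of_mem hx]; omega
      have hdx' : (dg G S x : ℝ) ≤ 1 := by exact_mod_cast hdx
      rw [max_eq_left (by linarith)] at h1
      have h2 : FF G m (S.erase x) + m ≤ FF G m S := by linarith
      by_cases hxy : x = y
      · subst hxy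
        refine ⟨SimpleGraph.Walk.nil, ?_, ?_⟩
        · intro z hz
          simp at hz
          rw [hz]; exact hx
        · have hne : (S.erase x).Nonempty := by
            rw [← card_pos, card_erase_of_mem hx]; omega
          have h3 := hlow _ hcard hne hcx
          simp only [SimpleGraph.Walk.length_nil, Nat.cast_zero, mul_zero, zero_add]
          linarith
      · obtain ⟨x', hx', hr⟩ := exists_last (hc y hy x hx) (Ne.symm hxy)
        obtain ⟨p, hp, hpl⟩ := ih _ hcard (S.erase x) rfl x' y hr.right
          (mem_erase.2 ⟨Ne.symm hxy, hy⟩) hcx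
        refine ⟨SimpleGraph.Walk.cons hx'.symm p, ?_, ?_⟩
        · intro z hz
          rw [SimpleGraph.Walk.support_cons, List.mem_cons] at hz
          rcases hz with rfl | hz
          · exact hx
          · exact mem_of_mem_erase (hp z hz)
        · rw [SimpleGraph.Walk.length_cons]
          push_cast
          linarith
    intro S hn x y hx hy hc
    by_cases hcut : ∃ v ∈ S, ∃ a ∈ S.erase v, ∃ b ∈ S.erase v, ¬ Rch G (S.erase v) a b
    · -- a cut vertex
      obtain ⟨v, hv, a, ha, b, hb, hab⟩ := hcut
      have hsplit := FF_split (G := G) (S := S) (a := a) m hv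
      have hc1 := conn_left hc hv ha
      have hc2 := conn_right (a := a) hc hv
      set A := comp G (S.erase v) a with hA
      have hAS : A ⊆ S.erase v := comp_subset a
      have hvA : v ∉ A := fun h => (notMem_erase v S) (hAS h)
      have hv1 : v ∈ insert v A := mem_insert_self v A
      have hv2 : v ∈ S \ A := mem_sdiff.2 ⟨hv, hvA⟩
      have haA : a ∈ A := mem_comp.2 (Rch.refl ha)
      have hbA : b ∉ A := fun h => hab (mem_comp.1 h)
      have hbv : b ≠ v := ne_of_mem_erase hb
      have hbS : b ∈ S := mem_of_mem_erase hb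
      have hsub1 : insert v A ⊆ S := insert_subset hv (hAS.trans (erase_subset v S))
      have hcard1 : (insert v A).card < n := by
        rw [← hn]
        refine card_lt_card ⟨hsub1, fun h => ?_⟩
        have := h hbS
        rw [mem_insert] at this
        exact this.elim hbv hbA
      have hcard2 : (S \ A).card < n := by
        rw [← hn]
        refine card_lt_card ⟨sdiff_subset, fun h => ?_⟩
        have := h (mem_of_mem_erase (hAS haA))
        rw [mem_sdiff] at this
        exact this.2 haA
      have hl1 := hlow _ hcard1 ⟨v, hv1⟩ hc1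
      have hl2 := hlow _ hcard2 ⟨v, hv2⟩ hc2
      have hmem : ∀ z ∈ S, z ∈ insert v A ∨ z ∈ S \ A := by
        intro z hz
        by_cases hzA : z ∈ A
        · exact Or.inl (mem_insert_of_mem hzA)
        · exact Or.inr (mem_sdiff.2 ⟨hz, hzA⟩)
      -- both end points in one part
      rcases hmem x hx with hx1 | hx2
      · rcases hmem y hy with hy1 | hy2
        · obtain ⟨p, hp, hpl⟩ := ih _ hcard1 _ rfl x y hx1 hy1 hc1
          exact ⟨p, fun z hz => hsub1 (hp z hz), by linarith⟩
        · obtain ⟨p, hp, hpl⟩ := ih _ hcard1 _ rfl x v hx1 hv1 hc1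
          obtain ⟨q, hq, hql⟩ := ih _ hcard2 _ rfl v y hv2 hy2 hc2
          refine ⟨p.append q, fun z hz => ?_, ?_⟩
          · rw [SimpleGraph.Walk.mem_support_append_iff] at hz
            exact hz.elim (fun h => hsub1 (hp z h)) (fun h => sdiff_subset (hq z h))
          · rw [SimpleGraph.Walk.length_append]
            push_cast
            linarith
      · rcases hmem y hy with hy1 | hy2
        · obtain ⟨p, hp, hpl⟩ := ih _ hcard2 _ rfl x v hx2 hv2 hc2
          obtain ⟨q, hq, hql⟩ := ih _ hcard1 _ rfl v y hv1 hy1 hc1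
          refine ⟨p.append q, fun z hz => ?_, ?_⟩
          · rw [SimpleGraph.Walk.mem_support_append_iff] at hz
            exact hz.elim (fun h => sdiff_subset (hp z h)) (fun h => hsub1 (hq z h))
          · rw [SimpleGraph.Walk.length_append]
            push_cast
            linarith
        · obtain ⟨p, hp, hpl⟩ := ih _ hcard2 _ rfl x y hx2 hy2 hc2
          exact ⟨p, fun z hz => sdiff_subset (hp z hz), by linarith⟩
    · push Not at hcut
      have hce : ∀ v ∈ S, Conn G (S.erase v) := fun v hv a ha b hb => hcut v hv a ha b hb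
      by_cases hdel : ∃ v ∈ S, v ≠ x ∧ v ≠ y ∧ 2 * dg G S v ≤ m + 2
      · -- delete a vertex of small degree
        obtain ⟨v, hv, hvx, hvy, hdv⟩ := hdel
        have h1 := FF_erase (G := G) m hv
        have hcard : (S.erase v).card < n := by
          rw [card_erase_of_mem hv]
          have : 0 < S.card := card_pos.2 ⟨v, hv⟩
          omega
        obtain ⟨p, hp, hpl⟩ := ih _ hcard (S.erase v) rfl x y (mem_erase.2 ⟨Ne.symm hvx, hx⟩)
          (mem_erase.2 ⟨Ne.symm hvy, hy⟩) (hce v hv)
        refine ⟨p, fun z hz => mem_of_mem_erase (hp z hz), ?_⟩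
        have h2 : 2 * (dg G S v : ℝ) ≤ m + 2 := by exact_mod_cast hdv
        have h3 := le_max_left ((m : ℝ) + 2 - dg G S v) 0
        linarith
      · push Not at hdel
        rcases Nat.lt_or_ge n 2 with hn1 | hn2
        · -- one vertex
          have hS1 : S = {x} := by
            have h1 : S.card = 1 := by
              have : 0 < S.card := card_pos.2 ⟨x, hx⟩
              omega
            obtain ⟨z, hz⟩ := card_eq_one.1 h1
            rw [hz] at hx ⊢
            rw [mem_singleton.1 hx]
          have hyx : y = x := by rw [hS1] at hy; exact mem_singleton.1 hy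
          subst hyx
          refine ⟨SimpleGraph.Walk.nil, ?_, ?_⟩
          · intro z hz
            simp at hz
            rw [hz]; exact hx
          · have hdg : dg G S y = 0 := by
              unfold dg
              rw [card_eq_zero, filter_eq_empty_iff]
              intro z hz h
              rw [hS1, mem_singleton] at hz
              subst hz
              exact G.loopless.irrefl _ h
            unfold FF
            have h1 := single_le_sum (f := fun u => max ((m : ℝ) + 2 - dg G S u) 0)
              (fun u _ => le_max_right _ _) hx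
            rw [hdg] at h1
            have h2 := le_max_left ((m : ℝ) + 2 - ((0 : ℕ) : ℝ)) 0
            simp only [Nat.cast_zero, sub_zero] at h1 h2
            simp only [SimpleGraph.Walk.length_nil, Nat.cast_zero, mul_zero, zero_add]
            exact h2.trans h1
        · by_cases hlx : dg G S x ≤ 1
          · exact leaf S hn hn2 x y hx hy hc (hce x hx) hlx
          by_cases hly : dg G S y ≤ 1
          · obtain ⟨p, hp, hpl⟩ := leaf S hn hn2 y x hy hx hc (hce y hy) hly
            exact ⟨p.reverse, fun z hz => hp z (by simpa using hz), by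
              rw [SimpleGraph.Walk.length_reverse]; exact hpl⟩
          · push Not at hlx hly
            obtain ⟨p, hp, hpl⟩ := red (G := G) (c := c) (S := S) hL hinj hd hm hx hy hc
              (fun u hu => by
                by_cases h1 : u = x
                · rw [h1]; exact hlx
                by_cases h2 : u = y
                · rw [h2]; exact hly
                have := hdel u hu h1 h2
                omega)
              (fun u hu h1 h2 => hdel u hu h1 h2)
            refine ⟨p, hp, ?_⟩
            unfold FF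
            linarith

end Pool.Agent.MP1a3405.UB
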