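import Pool.Agent.Lib.MP_1a3405_co.Defs
import Pool.Agent.Lib.MP_1a3405_co.UB.Star

/-!
# MP_1a3405_co, upper bound for the maximum percolation time

`τ v` = infection time.  Every vertex has at most `r - 1` neighbours `w` with `τ w + 2 ≤ τ v`.
The near graph has the edges with `|τ u - τ v| ≤ 1`; it joins a vertex with `τ = 0` to a vertex with
`τ = T`, every walk has length `≥ T`, and `star` applied to its component gives
`(2 d - r - 1) T ≤ (r - 1) n^d + 2 d n^(d-1)`.
-/

namespace Pool.Agent.MP1a3405.UB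

set_option linter.unusedSectionVars false

open Finset Relation Pool.Agent.Lib.MP_1a3405_co

section abstract

variable {V : Type*} [Fintype V] [DecidableEq V] {G : SimpleGraph V} {r : ℕ} {A : Set V}

theorem infected_step (t : ℕ) : infected G r A t ⊆ infected G r A (t + 1) :=
  Set.subset_union_left

theorem infected_mono {s t : ℕ} (h : s ≤ t) : infected G r A s ⊆ infected G r A t := by
  induction t, h using Nat.le_induction with
  | base => exact subset_rfl
  | succ k _ ih => exact ih.trans (infected_step k)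

/-- the infection time -/
noncomputable def tau (G : SimpleGraph V) (r : ℕ) (A : Set V) (v : V) : ℕ :=
  sInf {t | v ∈ infected G r A t}

theorem tau_le_iff (hP : Percolates G r A) {v : V} {t : ℕ} :
    v ∈ infected G r A t ↔ tau G r A v ≤ t := by
  constructor
  · intro h; exact Nat.sInf_le h
  · intro h
    have hne : {t | v ∈ infected G r A t}.Nonempty := by
      obtain ⟨s, hs⟩ := hP
      exact ⟨s, by change v ∈ infected G r A s; rw [hs]; trivial⟩
    exact infected_mono h (Nat.sInf_mem hne)

/-- at most `r - 1` neighbours are infected at least two steps earlier -/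
theorem far_earlier (hP : Percolates G r A) (v : V) [DecidablePred fun w => G.Adj v w ∧
    tau G r A w + 2 ≤ tau G r A v] :
    (univ.filter (fun w => G.Adj v w ∧ tau G r A w + 2 ≤ tau G r A v)).card ≤ r - 1 := by
  rcases Nat.lt_or_ge (tau G r A v) 2 with h | h
  · have : (univ.filter (fun w => G.Adj v w ∧ tau G r A w + 2 ≤ tau G r A v)) = ∅ := by
      rw [filter_eq_empty_iff]
      intro w _ hw
      omega
    rw [this]; simp
  · obtain ⟨t, ht⟩ := Nat.exists_eq_add_of_le h
    have h1 : v ∉ infected G r A (t + 1) := by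
      rw [tau_le_iff hP]; omega
    have h2 : ¬ r ≤ (G.neighborSet v ∩ infected G r A t).ncard := fun h3 => h1 (Or.inr h3)
    have h3 : ((univ.filter (fun w => G.Adj v w ∧ tau G r A w + 2 ≤ tau G r A v) : Finset V) :
        Set V) = G.neighborSet v ∩ infected G r A t := by
      ext w
      rw [coe_filter, Set.mem_ofPred_eq, Set.mem_inter_iff, SimpleGraph.mem_neighborSet,
        tau_le_iff hP]
      simp only [mem_univ, true_and]
      constructor
      · rintro ⟨h4, h5⟩; exact ⟨h4, by omega⟩
      · rintro ⟨h4, h5⟩; exact ⟨h4, by omega⟩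
    rw [← h3, Set.ncard_coe_finset] at h2
    omega

/-- a neighbour infected one step earlier -/
theorem exists_prev (hP : Percolates G r A) (hr : 1 ≤ r) {v : V} {t : ℕ}
    (hv : tau G r A v = t + 1) : ∃ w, G.Adj v w ∧ tau G r A w = t := by
  have h1 : v ∈ infected G r A (t + 1) := by rw [tau_le_iff hP]; omega
  have h0 : v ∉ infected G r A t := by rw [tau_le_iff hP]; omega
  have h2 : r ≤ (G.neighborSet v ∩ infected G r A t).ncard := h1.resolve_left h0
  by_contra hcon
  push Not at hcon
  rcases Nat.eq_zero_or_pos t with ht | ht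
  · subst ht
    have h3 : (G.neighborSet v ∩ infected G r A 0).Nonempty := by
      rw [Set.nonempty_iff_ne_empty]
      intro h
      rw [h, Set.ncard_empty] at h2
      omega
    obtain ⟨w, hw1, hw2⟩ := h3
    rw [tau_le_iff hP] at hw2
    exact hcon w hw1 (by omega)
  · obtain ⟨s, rfl⟩ : ∃ s, t = s + 1 := ⟨t - 1, by omega⟩
    apply h0
    refine Or.inr (h2.trans (Set.ncard_le_ncard ?_ (Set.toFinite _)))
    rintro w ⟨hw1, hw2⟩
    refine ⟨hw1, ?_⟩
    rw [tau_le_iff hP] at hw2 ⊢
    have := hcon w hw1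
    omega

/-- the near graph -/
def near (G : SimpleGraph V) (τ : V → ℕ) : SimpleGraph V where
  Adj u v := G.Adj u v ∧ τ u ≤ τ v + 1 ∧ τ v ≤ τ u + 1
  symm := ⟨fun _ _ h => ⟨h.1.symm, h.2.2, h.2.1⟩⟩
  loopless := ⟨fun _ h => G.loopless.irrefl _ h.1⟩

theorem exists_zero (hP : Percolates G r A) (hr : 1 ≤ r) : ∀ (t : ℕ) (v : V), tau G r A v = t →
    ∃ w, tau G r A w = 0 ∧ Rch (near G (tau G r A)) univ v w := by
  intro t
  induction t with
  | zero => intro v hv; exact ⟨v, hv, Rch.refl (mem_univ v)⟩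
  | succ t ih =>
    intro v hv
    obtain ⟨w, hw1, hw2⟩ := exists_prev hP hr hv
    obtain ⟨z, hz1, hz2⟩ := ih w hw2
    refine ⟨z, hz1, (Rch.adj ?_ (mem_univ v) (mem_univ w)).trans hz2⟩
    exact ⟨hw1, by omega, by omega⟩

theorem walk_len {τ : V → ℕ} {u v : V} (p : (near G τ).Walk u v) : τ v ≤ τ u + p.length := by
  induction p with
  | nil => simp
  | @cons a b c h p ih =>
    rw [SimpleGraph.Walk.length_cons]
    have := h.2.2
    omega

/-- far edges: later ends and earlier ends are equally many -/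
theorem sum_far (τ : V → ℕ) [DecidableRel G.Adj] :
    ∑ u : V, (univ.filter (fun w => G.Adj u w ∧ τ u + 2 ≤ τ w)).card =
      ∑ u : V, (univ.filter (fun w => G.Adj u w ∧ τ w + 2 ≤ τ u)).card := by
  simp only [card_filter]
  rw [sum_comm]
  refine sum_congr rfl fun u _ => sum_congr rfl fun w _ => ?_
  simp only [G.adj_comm u w]

end abstract

/-! ### the grid -/

/-- coordinates of the vertices of the grid -/
def gc {d n : ℕ} (v : Fin d → Fin n) : Fin d → ℤ := fun i => ((v i : ℕ) : ℤ)

theorem gc_inj {d n : ℕ} : Function.Injective (gc : (Fin d → Fin n) → Fin d → ℤ) := by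
  intro u v h
  funext i
  have := congrFun h i
  unfold gc at this
  exact Fin.ext (by exact_mod_cast this)

theorem lat_grid {d n : ℕ} : Lat (grid d n) gc := by
  rintro u v ⟨i, h1, h2⟩
  refine ⟨i, ?_⟩
  rcases h2 with h2 | h2
  · left
    funext j
    by_cases hj : j = i
    · subst hj
      simp only [Pi.add_apply, Pi.single_eq_same]
      unfold gc
      push_cast [← h2]
      ring
    · have : (Pi.single (M := fun _ => ℤ) i 1) j = 0 := Pi.single_eq_of_ne hj _
      rw [Pi.add_apply, this, add_zero]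
      unfold gc
      rw [h1 j hj]
  · right
    funext j
    by_cases hj : j = i
    · subst hj
      simp only [Pi.add_apply, Pi.single_eq_same]
      unfold gc
      push_cast [← h2]
      ring
    · have : (Pi.single (M := fun _ => ℤ) i 1) j = 0 := Pi.single_eq_of_ne hj _
      rw [Pi.add_apply, this, add_zero]
      unfold gc
      rw [h1 j hj]

/-- number of missing neighbours -/
def bet {d n : ℕ} (u : Fin d → Fin n) : ℕ :=
  (univ.filter (fun i => (u i : ℕ) = 0)).card + (univ.filter (fun i => (u i : ℕ) + 1 = n)).card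

theorem grid_up {d n : ℕ} (u : Fin d → Fin n) (i : Fin d) (h : (u i : ℕ) + 1 < n) :
    ∃ v, (grid d n).Adj u v ∧ gc v = gc u + Pi.single i 1 := by
  refine ⟨Function.update u i ⟨(u i : ℕ) + 1, h⟩, ⟨i, fun j hj => ?_, ?_⟩, ?_⟩
  · rw [Function.update_of_ne hj]
  · left; rw [Function.update_self]
  · funext j
    by_cases hj : j = i
    · subst hj
      unfold gc
      simp
    · have : (Pi.single (M := fun _ => ℤ) i 1) j = 0 := Pi.single_eq_of_ne hj _
      rw [Pi.add_apply, this, add_zero]
      unfold gc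
      rw [Function.update_of_ne hj]

theorem deg_grid {d n : ℕ} (u : Fin d → Fin n) : 2 * d ≤ dg (grid d n) univ u + bet u := by
  classical
  rw [dg_eq lat_grid gc_inj (mem_univ u)]
  have h1 : (univ.filter (fun i => (u i : ℕ) + 1 = n))ᶜ ⊆ outd (grid d n) gc univ u := by
    intro i hi
    rw [mem_compl, mem_filter] at hi
    have hlt : (u i : ℕ) + 1 < n := by
      have := (u i).isLt
      have h2 : ¬ (u i : ℕ) + 1 = n := fun h => hi ⟨mem_univ i, h⟩
      omega
    obtain ⟨v, hv1, hv2⟩ := grid_up u i hlt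
    exact mem_outd.2 ⟨v, mem_univ u, mem_univ v, hv1, hv2⟩
  have h2 : (univ.filter (fun i => (u i : ℕ) = 0))ᶜ ⊆ ind (grid d n) gc univ u := by
    intro i hi
    rw [mem_compl, mem_filter] at hi
    have hne : ¬ (u i : ℕ) = 0 := fun h => hi ⟨mem_univ i, h⟩
    have hlt : (u i : ℕ) - 1 < n := by
      have := (u i).isLt
      omega
    set v := Function.update u i ⟨(u i : ℕ) - 1, hlt⟩ with hv
    have hvi : ((v i : Fin n) : ℕ) = (u i : ℕ) - 1 := by rw [hv, Function.update_self]
    obtain ⟨z, hz1, hz2⟩ := grid_up v i (by have := (u i).isLt; omega)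
    have hzu : z = u := by
      apply gc_inj
      rw [hz2]
      funext j
      by_cases hj : j = i
      · subst hj
        rw [Pi.add_apply, Pi.single_eq_same]
        unfold gc
        rw [hvi]
        omega
      · have : (Pi.single (M := fun _ => ℤ) i 1) j = 0 := Pi.single_eq_of_ne hj _
        rw [Pi.add_apply, this, add_zero]
        unfold gc
        rw [hv, Function.update_of_ne hj]
    subst hzu
    exact mem_ind.2 ⟨v, mem_univ v, mem_univ _, hz1, hz2⟩
  have h3 := card_le_card h1
  have h4 := card_le_card h2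
  rw [card_compl, Fintype.card_fin] at h3 h4
  have h5 := card_le_univ (univ.filter (fun i => (u i : ℕ) + 1 = n))
  have h6 := card_le_univ (univ.filter (fun i => (u i : ℕ) = 0))
  rw [Fintype.card_fin] at h5 h6
  unfold bet
  omega

theorem card_slice {d n : ℕ} (i : Fin d) (a : Fin n) :
    (univ.filter (fun u : Fin d → Fin n => u i = a)).card = n ^ (d - 1) := by
  classical
  have h1 : (univ.filter (fun u : Fin d → Fin n => u i = a)) =
      Fintype.piFinset (fun j => if j = i then {a} else univ) := by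
    ext u
    rw [mem_filter, Fintype.mem_piFinset]
    simp only [mem_univ, true_and]
    constructor
    · intro h j
      split_ifs with hj
      · subst hj; rw [h]; exact mem_singleton_self _
      · exact mem_univ _
    · intro h
      have := h i
      rw [if_pos rfl] at this
      exact mem_singleton.1 this
  rw [h1, Fintype.card_piFinset]
  have h2 : ∀ j : Fin d, (if j = i then ({a} : Finset (Fin n)) else univ).card =
      if j = i then 1 else n := by
    intro j
    split_ifs <;> simp
  rw [prod_congr rfl fun j _ => h2 j, prod_ite]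
  simp only [prod_const_one, one_mul, prod_const]
  congr 1
  have h3 : (univ.filter (fun j => ¬ j = i)) = univ.erase i := by
    ext j; simp
  rw [h3, card_erase_of_mem (mem_univ i), card_univ, Fintype.card_fin]

theorem card_slice_le {d n : ℕ} (i : Fin d) (f : ℕ → Prop) [DecidablePred f]
    (hf : ∀ a b, f a → f b → a = b) :
    (univ.filter (fun u : Fin d → Fin n => f (u i))).card ≤ n ^ (d - 1) := by
  classical
  by_cases h : ∃ a : Fin n, f a
  · obtain ⟨a, ha⟩ := h
    rw [← card_slice i a]
    refine card_le_card fun u hu => ?_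
    rw [mem_filter] at hu ⊢
    exact ⟨mem_univ u, Fin.ext (hf _ _ hu.2 ha)⟩
  · have : (univ.filter (fun u : Fin d → Fin n => f (u i))) = ∅ := by
      rw [filter_eq_empty_iff]
      intro u _ hu
      exact h ⟨u i, hu⟩
    rw [this]; simp

theorem sum_bet (d n : ℕ) : ∑ u : Fin d → Fin n, bet u ≤ 2 * d * n ^ (d - 1) := by
  classical
  unfold bet
  simp only [card_filter]
  rw [sum_add_distrib, sum_comm, sum_comm (f := fun (u : Fin d → Fin n) (i : Fin d) =>
    if (u i : ℕ) + 1 = n then 1 else 0)]
  simp only [← card_filter]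
  have h1 : ∑ i : Fin d, (univ.filter (fun u : Fin d → Fin n => (u i : ℕ) = 0)).card ≤
      ∑ _i : Fin d, n ^ (d - 1) :=
    sum_le_sum fun i _ => card_slice_le i (fun a => a = 0) (fun a b ha hb => by omega)
  have h2 : ∑ i : Fin d, (univ.filter (fun u : Fin d → Fin n => (u i : ℕ) + 1 = n)).card ≤
      ∑ _i : Fin d, n ^ (d - 1) :=
    sum_le_sum fun i _ => card_slice_le i (fun a => a + 1 = n) (fun a b ha hb => by omega)
  rw [sum_const, card_univ, Fintype.card_fin, smul_eq_mul] at h1 h2
  calc _ ≤ d * n ^ (d - 1) + d * n ^ (d - 1) := add_le_add h1 h2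
    _ = 2 * d * n ^ (d - 1) := by ring

/-- upper bound for the percolation time of one set -/
theorem upper_one {d n r : ℕ} (hd : 4 ≤ d) (hr1 : 1 ≤ r) (hr : r < d) {A : Set (Fin d → Fin n)}
    (hP : Percolates (grid d n) r A) :
    (2 * (d : ℝ) - r - 1) * percTime (grid d n) r A ≤
      ((r : ℝ) - 1) * (n : ℝ) ^ d + 2 * d * (n : ℝ) ^ (d - 1) := by
  classical
  set τ := tau (grid d n) r A with hτ
  set T := percTime (grid d n) r A with hT
  have hr1' : (1 : ℝ) ≤ r := by exact_mod_cast hr1
  have hrd : (r : ℝ) + 1 ≤ d := by exact_mod_cast hr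
  rcases Nat.eq_zero_or_pos T with hT0 | hTpos
  · rw [hT0]
    simp only [Nat.cast_zero, mul_zero]
    have h1 : (0 : ℝ) ≤ r - 1 := by linarith
    positivity
  -- a vertex infected at time at least `T`
  obtain ⟨v, hv⟩ : ∃ v, T ≤ τ v := by
    have h1 : infected (grid d n) r A (T - 1) ≠ Set.univ := by
      intro h
      have h2 : T ≤ T - 1 := by
        rw [hT]
        exact Nat.sInf_le h
      omega
    obtain ⟨v, hv⟩ := (Set.ne_univ_iff_exists_notMem _).1 h1
    refine ⟨v, ?_⟩
    have h3 : ¬ τ v ≤ T - 1 := fun h => hv ((tau_le_iff hP).2 h)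
    omega
  obtain ⟨v0, hv0, hRv⟩ := exists_zero hP hr1 (τ v) v rfl
  set N := near (grid d n) τ with hN
  have hLN : Lat N gc := fun a b h => lat_grid a b h.1
  set S := comp N univ v with hS
  have hvS : v ∈ S := mem_comp.2 (Rch.refl (mem_univ v))
  have hv0S : v0 ∈ S := mem_comp.2 hRv
  set m := 2 * d - r - 1 with hm
  have hmd : d ≤ m := by omega
  obtain ⟨p, _, hpl⟩ := star hLN gc_inj hd hmd S.card S rfl v0 v hv0S hvS (conn_comp v)
  have hlen := walk_len p
  have hTlen : (T : ℝ) ≤ p.length := by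
    have : T ≤ p.length := by
      have h0 : τ v0 = 0 := hv0
      omega
    exact_mod_cast this
  have hmR : (m : ℝ) = 2 * d - r - 1 := by
    have h1 : m + r + 1 = 2 * d := by omega
    have h2 : (m : ℝ) + r + 1 = 2 * d := by exact_mod_cast h1
    linarith
  -- the cost
  have hcost : ∀ u ∈ S, max ((m : ℝ) + 2 - dg N S u) 0 ≤
      (bet u : ℝ) + (univ.filter (fun w => (grid d n).Adj u w ∧ τ u + 2 ≤ τ w)).card := by
    intro u hu
    refine max_le ?_ (by positivity)
    have h1 := deg_grid u
    have h2 := far_earlier hP u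
    have h3 : dg (grid d n) univ u ≤ dg N S u +
        (univ.filter (fun w => (grid d n).Adj u w ∧ τ w + 2 ≤ τ u)).card +
        (univ.filter (fun w => (grid d n).Adj u w ∧ τ u + 2 ≤ τ w)).card := by
      unfold dg
      rw [add_assoc]
      refine le_trans (card_le_card (t := S.filter (fun w => N.Adj u w) ∪
        (univ.filter (fun w => (grid d n).Adj u w ∧ τ w + 2 ≤ τ u) ∪
        univ.filter (fun w => (grid d n).Adj u w ∧ τ u + 2 ≤ τ w))) ?_) ?_
      · intro w hw
        rw [mem_filter] at hw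
        rw [mem_union, mem_union, mem_filter, mem_filter, mem_filter]
        by_cases h4 : τ w + 2 ≤ τ u
        · exact Or.inr (Or.inl ⟨mem_univ w, hw.2, h4⟩)
        by_cases h5 : τ u + 2 ≤ τ w
        · exact Or.inr (Or.inr ⟨mem_univ w, hw.2, h5⟩)
        left
        have h6 : N.Adj u w := ⟨hw.2, by omega, by omega⟩
        exact ⟨mem_comp.2 ((mem_comp.1 hu).trans (Rch.adj h6 (mem_univ u) (mem_univ w))), h6⟩
      · refine (card_union_le _ _).trans ?_
        gcongr
        exact card_union_le _ _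
    have h4 : m + 2 ≤ dg N S u + (bet u +
        (univ.filter (fun w => (grid d n).Adj u w ∧ τ u + 2 ≤ τ w)).card) := by
      have h5 : (univ.filter (fun w => (grid d n).Adj u w ∧ τ w + 2 ≤ τ u)).card ≤ r - 1 := by
        convert h2
      omega
    have h5 : ((m + 2 : ℕ) : ℝ) ≤ ((dg N S u + (bet u +
        (univ.filter (fun w => (grid d n).Adj u w ∧ τ u + 2 ≤ τ w)).card) : ℕ) : ℝ) := by
      exact_mod_cast h4
    push_cast at h5
    linarith
  have hFF : FF N m S ≤ 2 * d * (n : ℝ) ^ (d - 1) + (r - 1) * (n : ℝ) ^ d := by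
    unfold FF
    have hbet : ((∑ u : Fin d → Fin n, bet u : ℕ) : ℝ) ≤ 2 * d * (n : ℝ) ^ (d - 1) := by
      exact_mod_cast sum_bet d n
    have hfar : ((∑ u : Fin d → Fin n,
        (univ.filter (fun w => (grid d n).Adj u w ∧ τ u + 2 ≤ τ w)).card : ℕ) : ℝ) ≤
        (r - 1) * (n : ℝ) ^ d := by
      rw [sum_far]
      have h1 : ∑ u : Fin d → Fin n,
          (univ.filter (fun w => (grid d n).Adj u w ∧ τ w + 2 ≤ τ u)).card ≤
          ∑ _u : Fin d → Fin n, (r - 1) := by
        refine sum_le_sum fun u _ => ?_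
        have h2 := far_earlier hP u
        convert h2
      rw [sum_const, card_univ, Fintype.card_fun, Fintype.card_fin, Fintype.card_fin,
        smul_eq_mul] at h1
      have h3 : ((r - 1 : ℕ) : ℝ) = r - 1 := by
        rw [Nat.cast_sub hr1, Nat.cast_one]
      calc ((∑ u : Fin d → Fin n,
          (univ.filter (fun w => (grid d n).Adj u w ∧ τ w + 2 ≤ τ u)).card : ℕ) : ℝ)
          ≤ ((n ^ d * (r - 1) : ℕ) : ℝ) := by exact_mod_cast h1
        _ = (r - 1) * (n : ℝ) ^ d := by rw [Nat.cast_mul, h3]; push_cast; ring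
    calc ∑ u ∈ S, max ((m : ℝ) + 2 - dg N S u) 0
        ≤ ∑ u ∈ S, ((bet u : ℝ) +
          (univ.filter (fun w => (grid d n).Adj u w ∧ τ u + 2 ≤ τ w)).card) := sum_le_sum hcost
      _ ≤ ∑ u : Fin d → Fin n, ((bet u : ℝ) +
          (univ.filter (fun w => (grid d n).Adj u w ∧ τ u + 2 ≤ τ w)).card) :=
          sum_le_sum_of_subset_of_nonneg (subset_univ S) fun u _ _ => by positivity
      _ ≤ 2 * d * (n : ℝ) ^ (d - 1) + (r - 1) * (n : ℝ) ^ d := by
          rw [sum_add_distrib]
          push_cast at hbet hfar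
          exact add_le_add hbet hfar
  have hm0 : (0 : ℝ) ≤ m := Nat.cast_nonneg m
  have h1 : (m : ℝ) * T ≤ m * p.length := mul_le_mul_of_nonneg_left hTlen hm0
  rw [← hmR]
  linarith

/-- upper bound for the maximum percolation time -/
theorem upper {d r : ℕ} (hd : 4 ≤ d) (hr1 : 1 ≤ r) (hr : r < d) (n : ℕ) :
    (2 * (d : ℝ) - r - 1) * maxPercTime (grid d n) r ≤
      ((r : ℝ) - 1) * (n : ℝ) ^ d + 2 * d * (n : ℝ) ^ (d - 1) := by
  set X := {T | ∃ A₀ : Set (Fin d → Fin n), Percolates (grid d n) r A₀ ∧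
    percTime (grid d n) r A₀ = T} with hX
  have hne : X.Nonempty := by
    refine ⟨percTime (grid d n) r Set.univ, Set.univ, ⟨0, rfl⟩, rfl⟩
  have hm0 : (0 : ℝ) < 2 * d - r - 1 := by
    have h1 : (r : ℝ) + 1 ≤ d := by exact_mod_cast hr
    have h2 : (4 : ℝ) ≤ d := by exact_mod_cast hd
    linarith
  have hbd : ∀ T ∈ X, (2 * (d : ℝ) - r - 1) * T ≤
      ((r : ℝ) - 1) * (n : ℝ) ^ d + 2 * d * (n : ℝ) ^ (d - 1) := by
    rintro T ⟨A₀, hA, rfl⟩
    exact upper_one hd hr1 hr hA
  have hbdd : BddAbove X := by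
    obtain ⟨B, hB⟩ := exists_nat_ge ((((r : ℝ) - 1) * (n : ℝ) ^ d + 2 * d * (n : ℝ) ^ (d - 1)) /
      (2 * d - r - 1))
    refine ⟨B, fun T hT => ?_⟩
    have h1 := hbd T hT
    have h2 : (T : ℝ) ≤ (((r : ℝ) - 1) * (n : ℝ) ^ d + 2 * d * (n : ℝ) ^ (d - 1)) /
      (2 * d - r - 1) := by
      rw [le_div_iff₀ hm0]; linarith
    exact_mod_cast h2.trans hB
  exact hbd _ (Nat.sSup_mem hne hbdd)

end Pool.Agent.MP1a3405.UB
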