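import Pool.Agent.Lib.MP_1a3405_co.UB.Sign

/-!
# MP_1a3405_co, upper bound: pointwise inequality and the averaged token lemma

`K = m + 2`, `m ≥ d ≥ 4`.  A vertex with out-directions `P`, in-directions `M`, `z1 = |P Δ M|`,
`z2 = |P ∩ M|`, degree `z1 + 2 z2`.
-/

namespace Pool.Agent.MP1a3405.UB

set_option linter.unusedSectionVars false

open Finset Relation

variable {V : Type*} [DecidableEq V] {d : ℕ}

/-! ### numerical inequalities -/

theorem two_pow_ge_succ (z : ℕ) : (z : ℝ) + 1 ≤ 2 ^ z := by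
  induction z with
  | zero => norm_num
  | succ z ih =>
    have : (0 : ℝ) ≤ z := Nat.cast_nonneg z
    rw [pow_succ]; push_cast; linarith

theorem two_pow_ge_quad (z : ℕ) (hz : 2 ≤ z) : (z : ℝ) * (z + 2) ≤ 2 * 2 ^ z := by
  induction z, hz using Nat.le_induction with
  | base => norm_num
  | succ z hz ih =>
    have : (2 : ℝ) ≤ z := by exact_mod_cast hz
    rw [pow_succ]; push_cast; nlinarith

theorem two_pow_ge_lin (z : ℕ) (hz : 3 ≤ z) : 2 * ((z : ℝ) + 1) ≤ 2 ^ z := by
  induction z, hz using Nat.le_induction with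
  | base => norm_num
  | succ z hz ih =>
    have : (3 : ℝ) ≤ z := by exact_mod_cast hz
    rw [pow_succ]; push_cast; linarith

theorem two_pow_ge_quad5 (z : ℕ) (hz : 5 ≤ z) : (z : ℝ) * (z + 1) ≤ 2 ^ z := by
  induction z, hz using Nat.le_induction with
  | base => norm_num
  | succ z hz ih =>
    have : (5 : ℝ) ≤ z := by exact_mod_cast hz
    rw [pow_succ]; push_cast; nlinarith

theorem numA {z m : ℕ} (hz : 2 ≤ z) (hzm : z ≤ m) :
    (m : ℝ) * (2 + 1 * z) ≤ 2 ^ z * (m + 2 - z) := by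
  obtain ⟨t, rfl⟩ := Nat.exists_eq_add_of_le hzm
  have h1 := two_pow_ge_quad z hz
  have h2 := two_pow_ge_succ z
  have h3 : (z : ℝ) + 2 ≤ 2 ^ z := by
    have : (2 : ℝ) ≤ z := by exact_mod_cast hz
    nlinarith
  have ht : (0 : ℝ) ≤ t := Nat.cast_nonneg t
  push_cast
  nlinarith [mul_nonneg ht (sub_nonneg.2 h3)]

theorem numB {z m : ℕ} (hzm : z + 1 ≤ m) : (m : ℝ) * 1 ≤ 2 ^ z * (m - z) := by
  obtain ⟨t, rfl⟩ := Nat.exists_eq_add_of_le hzm
  have h2 := two_pow_ge_succ z
  have ht : (0 : ℝ) ≤ t := Nat.cast_nonneg t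
  have hz : (0 : ℝ) ≤ z := Nat.cast_nonneg z
  have h3 : (1 : ℝ) ≤ 2 ^ z := by linarith
  push_cast
  nlinarith [mul_nonneg ht (sub_nonneg.2 h3)]

theorem numC {z m : ℕ} (hd : 4 ≤ d) (hdm : d ≤ m) (hzd : z ≤ d) (hz : m + 2 < 2 * z) :
    (m : ℝ) * (2 + (2 * ((d : ℝ) - 1) / d) * z) ≤ 2 ^ z * (m + 2 - z) := by
  have hd0 : (0 : ℝ) < d := by
    have : 0 < d := by omega
    exact_mod_cast this
  have hb2 : 2 * ((d : ℝ) - 1) / d ≤ 2 := by
    rw [div_le_iff₀ hd0]; linarith
  have hz4 : 4 ≤ z := by omega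
  rcases Nat.lt_or_ge 4 z with h5 | h5
  · have hz5 : 5 ≤ z := h5
    obtain ⟨t, rfl⟩ := Nat.exists_eq_add_of_le (hzd.trans hdm)
    have h1 := two_pow_ge_quad5 z hz5
    have h2 := two_pow_ge_lin z (by omega)
    have ht : (0 : ℝ) ≤ t := Nat.cast_nonneg t
    have hz0 : (0 : ℝ) ≤ z := Nat.cast_nonneg z
    have h3 : ((z + t : ℕ) : ℝ) * (2 + (2 * ((d : ℝ) - 1) / d) * z) ≤
        ((z + t : ℕ) : ℝ) * (2 + 2 * z) := by
      apply mul_le_mul_of_nonneg_left _ (Nat.cast_nonneg _)
      nlinarith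
    refine h3.trans ?_
    push_cast
    nlinarith [mul_nonneg ht (sub_nonneg.2 h2)]
  · have hz : z = 4 := by omega
    subst hz
    have hm5 : m ≤ 5 := by omega
    have hm4 : 4 ≤ m := by omega
    interval_cases m
    · have : d = 4 := by omega
      subst this
      norm_num
    · have h6 : 2 * ((d : ℝ) - 1) / d ≤ 8 / 5 := by
        rw [div_le_iff₀ hd0]
        have : (d : ℝ) ≤ 5 := by exact_mod_cast hdm
        linarith
      norm_num
      linarith

theorem numD {z m : ℕ} (hd : 4 ≤ d) (hdm : d ≤ m) (hzd : z + 1 ≤ d) (hz : m + 2 < 2 * (z + 2)) :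
    (m : ℝ) * (2 * ((d : ℝ) - 1) / d) ≤ 2 ^ z * (m - z) := by
  have hd0 : (0 : ℝ) < d := by
    have : 0 < d := by omega
    exact_mod_cast this
  have hb2 : 2 * ((d : ℝ) - 1) / d ≤ 2 := by
    rw [div_le_iff₀ hd0]; linarith
  have h3 : (m : ℝ) * (2 * ((d : ℝ) - 1) / d) ≤ (m : ℝ) * 2 :=
    mul_le_mul_of_nonneg_left hb2 (Nat.cast_nonneg _)
  refine h3.trans ?_
  have hz2 : 2 ≤ z := by omega
  rcases Nat.lt_or_ge 2 z with h5 | h5
  · obtain ⟨t, rfl⟩ := Nat.exists_eq_add_of_le (hzd.trans hdm)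
    have h2 := two_pow_ge_lin z h5
    have ht : (0 : ℝ) ≤ t := Nat.cast_nonneg t
    have hz0 : (0 : ℝ) ≤ z := Nat.cast_nonneg z
    have h4 : (2 : ℝ) ≤ 2 ^ z := by linarith
    push_cast
    nlinarith [mul_nonneg ht (sub_nonneg.2 h4)]
  · have hz : z = 2 := by omega
    subst hz
    have hm5 : m ≤ 5 := by omega
    have hm4 : 4 ≤ m := by omega
    interval_cases m <;> norm_num

/-- the weight of a vertex with `n` out-directions -/
noncomputable def W (b : ℝ) (n : ℕ) : ℝ := if n = 0 then 2 else if n = 1 then b else 0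

theorem sum_W (b : ℝ) (P M : Finset (Fin d)) :
    ∑ s : Fin d → Bool, W b (nn P M s) =
      2 * (univ.filter (fun s => nn P M s = 0)).card + b * (univ.filter (fun s => nn P M s = 1)).card := by
  classical
  have h : ∀ s : Fin d → Bool, W b (nn P M s) =
      (if nn P M s = 0 then 2 else 0) + (if nn P M s = 1 then b else 0) := by
    intro s
    unfold W
    split_ifs with h1 h2 h2
    · omega
    · simp
    · simp
    · simp
  rw [sum_congr rfl fun s _ => h s, sum_add_distrib, ← sum_filter, ← sum_filter, sum_const,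
    sum_const, nsmul_eq_mul, nsmul_eq_mul]
  ring

/-- the pointwise inequality, given the two numerical inequalities -/
theorem pointwise {m : ℕ} {b : ℝ} (hb : 0 ≤ b) (P M : Finset (Fin d))
    (hA : (P ∩ M).card = 0 → (m : ℝ) * (2 + b * (sd P M).card) ≤
      2 ^ (sd P M).card * (m + 2 - (sd P M).card))
    (hB : (P ∩ M).card = 1 → (m : ℝ) * b ≤ 2 ^ (sd P M).card * (m - (sd P M).card)) :
    (m : ℝ) * ∑ s : Fin d → Bool, W b (nn P M s) ≤
      2 ^ d * max ((m : ℝ) + 2 - ((P.card + M.card : ℕ) : ℝ)) 0 := by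
  classical
  rw [sum_W]
  set z := (sd P M).card with hz
  set N0 := (univ.filter (fun s : Fin d → Bool => nn P M s = 0)).card with hN0
  set N1 := (univ.filter (fun s : Fin d → Bool => nn P M s = 1)).card with hN1
  have hcard := card_sd P M
  have hp : (0 : ℝ) < 2 ^ z := by positivity
  have hpd : (0 : ℝ) < 2 ^ d := by positivity
  have hm0 : (0 : ℝ) ≤ m := Nat.cast_nonneg m
  rcases Nat.lt_or_ge 1 (P ∩ M).card with h2 | h2
  · -- `z2 ≥ 2`
    have h3 : N0 = 0 := by
      rw [hN0, card_eq_zero, filter_eq_empty_iff]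
      intro s _ h
      have := inter_le_nn P M s
      omega
    have h4 : N1 = 0 := by
      rw [hN1, card_eq_zero, filter_eq_empty_iff]
      intro s _ h
      have := inter_le_nn P M s
      omega
    rw [h3, h4]
    simp only [Nat.cast_zero, mul_zero, add_zero]
    exact mul_nonneg hpd.le (le_max_right _ _)
  rcases Nat.lt_or_ge 0 (P ∩ M).card with h1 | h1
  · -- `z2 = 1`
    have h1' : (P ∩ M).card = 1 := by omega
    have h3 : N0 = 0 := by
      rw [hN0, card_eq_zero, filter_eq_empty_iff]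
      intro s _ h
      have := inter_le_nn P M s
      omega
    have h4 := count_zero P M
    rw [h1', ← hN1, ← hz] at h4
    have h5 : (N1 : ℝ) * 2 ^ z ≤ 2 ^ d := by exact_mod_cast h4
    have h6 := hB h1'
    rw [h3]
    have h7 : ((P.card + M.card : ℕ) : ℝ) = z + 2 := by
      rw [← hcard, h1', ← hz]; push_cast; ring
    rw [h7]
    have h8 : (m : ℝ) * (2 * ((0 : ℕ) : ℝ) + b * N1) ≤ 2 ^ d * ((m : ℝ) + 2 - (z + 2)) := by
      rw [← mul_le_mul_iff_left₀ hp]
      have h9 : (m : ℝ) * b * (N1 * 2 ^ z) ≤ (m : ℝ) * b * 2 ^ d :=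
        mul_le_mul_of_nonneg_left h5 (mul_nonneg hm0 hb)
      have h10 : (m : ℝ) * b * 2 ^ d ≤ 2 ^ z * (m - z) * 2 ^ d :=
        mul_le_mul_of_nonneg_right h6 hpd.le
      push_cast
      linarith
    exact h8.trans (mul_le_mul_of_nonneg_left (le_max_left _ _) hpd.le)
  · -- `z2 = 0`
    have h1' : (P ∩ M).card = 0 := by omega
    have h4 := count_zero P M
    rw [h1', ← hN0, ← hz] at h4
    have h5 : (N0 : ℝ) * 2 ^ z ≤ 2 ^ d := by exact_mod_cast h4
    have h4' := count_one P M h1'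
    rw [← hN1, ← hz] at h4'
    have h5' : (N1 : ℝ) * 2 ^ z ≤ z * 2 ^ d := by exact_mod_cast h4'
    have h6 := hA h1'
    have h7 : ((P.card + M.card : ℕ) : ℝ) = z := by
      rw [← hcard, h1', ← hz]; push_cast; ring
    rw [h7]
    have h8 : (m : ℝ) * (2 * N0 + b * N1) ≤ 2 ^ d * ((m : ℝ) + 2 - z) := by
      rw [← mul_le_mul_iff_left₀ hp]
      have h9 : (m : ℝ) * b * (N1 * 2 ^ z) ≤ (m : ℝ) * b * (z * 2 ^ d) :=
        mul_le_mul_of_nonneg_left h5' (mul_nonneg hm0 hb)
      have h11 : (m : ℝ) * 2 * (N0 * 2 ^ z) ≤ (m : ℝ) * 2 * 2 ^ d :=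
        mul_le_mul_of_nonneg_left h5 (by positivity)
      have h10 : (m : ℝ) * (2 + b * z) * 2 ^ d ≤ 2 ^ z * (m + 2 - z) * 2 ^ d :=
        mul_le_mul_of_nonneg_right h6 hpd.le
      linarith
    exact h8.trans (mul_le_mul_of_nonneg_left (le_max_left _ _) hpd.le)

variable {G : SimpleGraph V} {c : V → Fin d → ℤ} {S : Finset V}

theorem card_outd_sg (s : Fin d → Bool) (u : V) :
    (outd G (sg s c) S u).card = nn (outd G c S u) (ind G c S u) s := by
  rw [outd_sg]
  rfl

/-- the averaged token lemma for sets without vertices of small degree -/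
theorem red (hL : Lat G c) (hinj : Function.Injective c) (hd : 4 ≤ d) {m : ℕ} (hm : d ≤ m)
    {x y : V} (hx : x ∈ S) (hy : y ∈ S) (hc : Conn G S) (h2 : ∀ u ∈ S, 2 ≤ dg G S u)
    (hK : ∀ u ∈ S, u ≠ x → u ≠ y → m + 2 < 2 * dg G S u) :
    ∃ p : G.Walk x y, (∀ z ∈ p.support, z ∈ S) ∧
      (m : ℝ) * ((p.length : ℝ) + 2) ≤ ∑ u ∈ S, max ((m : ℝ) + 2 - dg G S u) 0 := by
  classical
  have hd0 : (0 : ℝ) < d := by
    have : 0 < d := by omega
    exact_mod_cast this
  have hd4 : (4 : ℝ) ≤ d := by exact_mod_cast hd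
  set b : V → ℝ := fun u => if u = x ∨ u = y then 1 else 2 * ((d : ℝ) - 1) / d with hb
  have hb1 : ∀ u, 1 ≤ b u := by
    intro u
    simp only [hb]
    split_ifs
    · exact le_refl _
    · rw [le_div_iff₀ hd0]; linarith
  set w : (Fin d → Bool) → V → ℝ := fun s u => W (b u) (nn (outd G c S u) (ind G c S u) s) with hw
  have hWt : ∀ s, Wt G (sg s c) (w s) S x y := by
    intro s
    refine ⟨fun u _ => ?_, fun u _ h => ?_, fun u _ h => ?_, fun u _ h h3 h4 => ?_⟩
    · simp only [hw]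
      unfold W
      have := hb1 u
      split_ifs <;> linarith
    · have h1 : nn (outd G c S u) (ind G c S u) s = 0 := by
        rw [← card_outd_sg, h]; simp
      simp only [hw]
      unfold W
      rw [if_pos h1]
    · rw [card_outd_sg] at h
      simp only [hw]
      unfold W
      rw [if_neg (by omega), if_pos h]
      exact hb1 u
    · rw [card_outd_sg] at h
      simp only [hw]
      unfold W
      rw [if_neg (by omega), if_pos h]
      simp only [hb]
      rw [if_neg (by tauto)]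
      rw [mul_div_cancel₀ _ hd0.ne']
  have hwalk : ∀ s, ∃ p : G.Walk x y, (∀ z ∈ p.support, z ∈ S) ∧
      (p.length : ℝ) + 2 ≤ ∑ u ∈ S, w s u := fun s =>
    tok (lat_sg hL s) (by omega) (w s) S.card S rfl x y hx hy hc (hWt s)
  have hpt : ∀ u ∈ S, (m : ℝ) * ∑ s : Fin d → Bool, w s u ≤
      2 ^ d * max ((m : ℝ) + 2 - dg G S u) 0 := by
    intro u hu
    have hdg := dg_eq hL hinj hu
    have hcard := card_sd (outd G c S u) (ind G c S u)
    have hcard2 := card_sd_inter (outd G c S u) (ind G c S u)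
    have h3 := h2 u hu
    rw [hdg]
    refine pointwise (zero_le_one.trans (hb1 u)) _ _ ?_ ?_
    · intro h0
      simp only [hb]
      split_ifs with hxy
      · exact numA (by omega) (by omega)
      · push Not at hxy
        have h4 := hK u hu hxy.1 hxy.2
        exact numC hd hm (by omega) (by omega)
    · intro h0
      simp only [hb]
      split_ifs with hxy
      · exact numB (by omega)
      · push Not at hxy
        have h4 := hK u hu hxy.1 hxy.2
        exact numD hd hm (by omega) (by omega)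
  have hsum : ∑ s : Fin d → Bool, (m : ℝ) * ∑ u ∈ S, w s u ≤
      ∑ _s : Fin d → Bool, ∑ u ∈ S, max ((m : ℝ) + 2 - dg G S u) 0 := by
    rw [← mul_sum, sum_comm, mul_sum, sum_const, card_univ, Fintype.card_fun, Fintype.card_bool,
      Fintype.card_fin, nsmul_eq_mul, mul_sum]
    push_cast
    exact sum_le_sum hpt
  obtain ⟨s, _, hs⟩ := exists_le_of_sum_le univ_nonempty hsum
  obtain ⟨p, hp, hpl⟩ := hwalk s
  exact ⟨p, hp, (mul_le_mul_of_nonneg_left hpl (Nat.cast_nonneg m)).trans hs⟩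

end Pool.Agent.MP1a3405.UB
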