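import Pool.Agent.Lib.MP_1a3405_co.UB.Tok

/-!
# MP_1a3405_co, upper bound: average of the token lemma over the sign vectors

`sg s c` = coordinates `c` with the signs of `s`.  For `u` with out-directions `P` and in-directions
`M` the number `#{i : s i ? i ∈ P : i ∈ M}` is the number of out-directions for `sg s c`.
-/

namespace Pool.Agent.MP1a3405.UB

set_option linter.unusedSectionVars false

open Finset Relation

variable {V : Type*} [DecidableEq V] {d : ℕ}

/-- degree inside `S` -/
noncomputable def dg (G : SimpleGraph V) (S : Finset V) (u : V) : ℕ := by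
  classical exact (S.filter (fun v => G.Adj u v)).card

/-- coordinates with signs -/
def sg (s : Fin d → Bool) (c : V → Fin d → ℤ) : V → Fin d → ℤ :=
  fun v i => if s i then c v i else - c v i

/-- directions of the in-edges -/
noncomputable def ind (G : SimpleGraph V) (c : V → Fin d → ℤ) (S : Finset V) (u : V) :
    Finset (Fin d) := by
  classical exact univ.filter (fun i => ∃ v, Ou G c S i v u)

variable {G : SimpleGraph V} {c : V → Fin d → ℤ} {S : Finset V}

theorem mem_ind {u : V} {i : Fin d} : i ∈ ind G c S u ↔ ∃ v, Ou G c S i v u := by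
  classical
  unfold ind
  simp

theorem sg_step {s : Fin d → Bool} {a b : V} {i : Fin d} :
    sg s c b = sg s c a + Pi.single i 1 ↔
      if s i then c b = c a + Pi.single i 1 else c a = c b + Pi.single i 1 := by
  have key : ∀ x y : Fin d → ℤ, (x = y + Pi.single i 1) ↔
      (x i = y i + 1 ∧ ∀ j, j ≠ i → x j = y j) := by
    intro x y
    constructor
    · intro h
      subst h
      refine ⟨by simp, fun j hj => ?_⟩
      have : (Pi.single (M := fun _ => ℤ) i 1) j = 0 := Pi.single_eq_of_ne hj _
      simp [this]
    · rintro ⟨h1, h2⟩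
      funext j
      by_cases hj : j = i
      · subst hj; simp [h1]
      · have : (Pi.single (M := fun _ => ℤ) i 1) j = 0 := Pi.single_eq_of_ne hj _
        simp [this, h2 j hj]
  rw [key]
  unfold sg
  split_ifs with hs
  · rw [key]
    constructor
    · rintro ⟨h1, h2⟩
      refine ⟨h1, fun j hj => ?_⟩
      have := h2 j hj
      split_ifs at this with h3
      · exact this
      · linarith
    · rintro ⟨h1, h2⟩
      refine ⟨h1, fun j hj => ?_⟩
      rw [h2 j hj]
  · rw [key]
    constructor
    · rintro ⟨h1, h2⟩
      refine ⟨by linarith, fun j hj => ?_⟩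
      have := h2 j hj
      split_ifs at this with h3
      · exact this.symm
      · linarith
    · rintro ⟨h1, h2⟩
      refine ⟨by linarith, fun j hj => ?_⟩
      rw [h2 j hj]

theorem lat_sg (hL : Lat G c) (s : Fin d → Bool) : Lat G (sg s c) := by
  intro u v h
  obtain ⟨i, hi⟩ := hL u v h
  refine ⟨i, ?_⟩
  rw [sg_step, sg_step]
  split_ifs
  · exact hi
  · exact hi.symm

theorem outd_sg (s : Fin d → Bool) (u : V) :
    outd G (sg s c) S u = univ.filter (fun i => if s i then i ∈ outd G c S u else
      i ∈ ind G c S u) := by
  classical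
  ext i
  rw [mem_outd, mem_filter]
  simp only [mem_univ, true_and]
  split_ifs with hs
  · rw [mem_outd]
    constructor
    · rintro ⟨v, h1, h2, h3, h4⟩
      rw [sg_step, if_pos hs] at h4
      exact ⟨v, h1, h2, h3, h4⟩
    · rintro ⟨v, h1, h2, h3, h4⟩
      refine ⟨v, h1, h2, h3, ?_⟩
      rw [sg_step, if_pos hs]
      exact h4
  · rw [mem_ind]
    constructor
    · rintro ⟨v, h1, h2, h3, h4⟩
      rw [sg_step, if_neg hs] at h4
      exact ⟨v, h2, h1, h3.symm, h4⟩
    · rintro ⟨v, h1, h2, h3, h4⟩
      refine ⟨v, h2, h1, h3.symm, ?_⟩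
      rw [sg_step, if_neg hs]
      exact h4

/-- the degree is the number of out-directions plus the number of in-directions -/
theorem dg_eq (hL : Lat G c) (hinj : Function.Injective c) {u : V} (hu : u ∈ S) :
    dg G S u = (outd G c S u).card + (ind G c S u).card := by
  classical
  unfold dg
  have hsplit : S.filter (fun v => G.Adj u v) =
      S.filter (fun v => ∃ i, Ou G c S i u v) ∪ S.filter (fun v => ∃ i, Ou G c S i v u) := by
    ext v
    simp only [mem_filter, mem_union]
    constructor
    · rintro ⟨hv, h⟩
      obtain ⟨i, hi | hi⟩ := hL.ou h hu hv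
      · exact Or.inl ⟨hv, i, hi⟩
      · exact Or.inr ⟨hv, i, hi⟩
    · rintro (⟨hv, i, hi⟩ | ⟨hv, i, hi⟩)
      · exact ⟨hv, hi.2.2.1⟩
      · exact ⟨hv, hi.2.2.1.symm⟩
  have hdisj : Disjoint (S.filter (fun v => ∃ i, Ou G c S i u v))
      (S.filter (fun v => ∃ i, Ou G c S i v u)) := by
    rw [Finset.disjoint_left]
    intro v hv hv'
    simp only [mem_filter] at hv hv'
    obtain ⟨_, i, hi⟩ := hv
    obtain ⟨_, j, hj⟩ := hv'
    have h1 := ht_step hi
    have h2 := ht_step hj
    omega
  rw [hsplit, card_union_of_disjoint hdisj]
  congr 1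
  · -- bijection with the out-directions
    refine (card_bij (fun i _ => ?_) ?_ ?_ ?_).symm
    · exact if h : i ∈ outd G c S u then (mem_outd.1 h).choose else u
    · intro i hi
      simp only [hi, dif_pos]
      have h1 := (mem_outd.1 hi).choose_spec
      exact mem_filter.2 ⟨h1.2.1, i, h1⟩
    · intro i hi j hj hij
      simp only [hi, hj, dif_pos] at hij
      have h1 := (mem_outd.1 hi).choose_spec
      have h2 := (mem_outd.1 hj).choose_spec
      have h3 : c u + Pi.single i 1 = c u + Pi.single j 1 := by
        rw [← h1.2.2.2, ← h2.2.2.2, hij]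
      have h4 : (Pi.single i 1 : Fin d → ℤ) = Pi.single j 1 := add_left_cancel h3
      by_contra hne
      have h5 := congrFun h4 i
      have h6 : (Pi.single (M := fun _ => ℤ) j 1) i = 0 := Pi.single_eq_of_ne hne _
      rw [h6] at h5
      simp at h5
    · intro v hv
      obtain ⟨hvS, i, hi⟩ := mem_filter.1 hv
      have him : i ∈ outd G c S u := mem_outd.2 ⟨v, hi⟩
      refine ⟨i, him, ?_⟩
      simp only [him, dif_pos]
      have h1 := (mem_outd.1 him).choose_spec
      exact hinj (by rw [h1.2.2.2, hi.2.2.2])
  · refine (card_bij (fun i _ => ?_) ?_ ?_ ?_).symm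
    · exact if h : i ∈ ind G c S u then (mem_ind.1 h).choose else u
    · intro i hi
      simp only [hi, dif_pos]
      have h1 := (mem_ind.1 hi).choose_spec
      exact mem_filter.2 ⟨h1.1, i, h1⟩
    · intro i hi j hj hij
      simp only [hi, hj, dif_pos] at hij
      have h1 := (mem_ind.1 hi).choose_spec
      have h2 := (mem_ind.1 hj).choose_spec
      have h3 := h1.2.2.2
      rw [hij] at h3
      have h7 := h2.2.2.2
      have h4 : (Pi.single i 1 : Fin d → ℤ) = Pi.single j 1 := add_left_cancel (h3.symm.trans h7)
      by_contra hne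
      have h5 := congrFun h4 i
      have h6 : (Pi.single (M := fun _ => ℤ) j 1) i = 0 := Pi.single_eq_of_ne hne _
      rw [h6] at h5
      simp at h5
    · intro v hv
      obtain ⟨hvS, i, hi⟩ := mem_filter.1 hv
      have him : i ∈ ind G c S u := mem_ind.2 ⟨v, hi⟩
      refine ⟨i, him, ?_⟩
      simp only [him, dif_pos]
      have h1 := (mem_ind.1 him).choose_spec
      refine hinj ?_
      have h2 := h1.2.2.2
      have h3 := hi.2.2.2
      rw [h2] at h3
      exact add_right_cancel h3

/-! ### counting sign vectors -/

theorem card_fix (B : Finset (Fin d)) (f : Fin d → Bool) :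
    (univ.filter (fun s : Fin d → Bool => ∀ i ∈ B, s i = f i)).card * 2 ^ B.card = 2 ^ d := by
  classical
  have h1 : (univ.filter (fun s : Fin d → Bool => ∀ i ∈ B, s i = f i)) =
      Fintype.piFinset (fun i => if i ∈ B then {f i} else univ) := by
    ext s
    rw [mem_filter, Fintype.mem_piFinset]
    simp only [mem_univ, true_and]
    constructor
    · intro h i
      split_ifs with hi
      · rw [h i hi]; exact mem_singleton_self _
      · exact mem_univ _
    · intro h i hi
      have := h i
      rw [if_pos hi] at this
      exact mem_singleton.1 this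
  rw [h1, Fintype.card_piFinset]
  have h2 : ∀ i : Fin d, (if i ∈ B then ({f i} : Finset Bool) else univ).card =
      if i ∈ B then 1 else 2 := by
    intro i
    split_ifs <;> simp
  rw [prod_congr rfl fun i _ => h2 i, prod_ite]
  simp only [prod_const_one, one_mul, prod_const]
  rw [← pow_add]
  congr 1
  have h3 : (univ.filter (fun i => i ∉ B)).card + B.card = d := by
    have h4 : (univ.filter (fun i => i ∉ B)) = Bᶜ := by
      ext i; simp
    rw [h4, card_compl, Fintype.card_fin]
    have := card_le_univ B
    rw [Fintype.card_fin] at this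
    omega
  exact h3

/-- the number of directions counted by `s` -/
def nn (P M : Finset (Fin d)) (s : Fin d → Bool) : ℕ :=
  (univ.filter (fun i => if s i then i ∈ P else i ∈ M)).card

theorem inter_le_nn (P M : Finset (Fin d)) (s : Fin d → Bool) : (P ∩ M).card ≤ nn P M s := by
  refine card_le_card fun i hi => ?_
  rw [mem_inter] at hi
  rw [mem_filter]
  refine ⟨mem_univ i, ?_⟩
  split_ifs
  · exact hi.1
  · exact hi.2

/-- the symmetric difference -/
def sd (P M : Finset (Fin d)) : Finset (Fin d) := (P \ M) ∪ (M \ P)

theorem card_sd (P M : Finset (Fin d)) : (sd P M).card + 2 * (P ∩ M).card = P.card + M.card := by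
  unfold sd
  have hd : Disjoint (P \ M) (M \ P) := by
    rw [Finset.disjoint_left]
    intro i hi hi'
    rw [mem_sdiff] at hi hi'
    exact hi'.2 hi.1
  rw [card_union_of_disjoint hd]
  have h1 := card_sdiff_add_card_inter P M
  have h2 := card_sdiff_add_card_inter M P
  rw [inter_comm M P] at h2
  omega

theorem card_sd_inter (P M : Finset (Fin d)) : (sd P M).card + (P ∩ M).card ≤ d := by
  have hd : Disjoint (sd P M) (P ∩ M) := by
    rw [Finset.disjoint_left]
    intro i hi hi'
    unfold sd at hi
    rw [mem_union, mem_sdiff, mem_sdiff] at hi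
    rw [mem_inter] at hi'
    rcases hi with hi | hi
    · exact hi.2 hi'.2
    · exact hi.2 hi'.1
  rw [← card_union_of_disjoint hd]
  have := card_le_univ (sd P M ∪ P ∩ M)
  rwa [Fintype.card_fin] at this

/-- the sign vectors with `nn = |P ∩ M|` -/
theorem count_zero (P M : Finset (Fin d)) :
    (univ.filter (fun s => nn P M s = (P ∩ M).card)).card * 2 ^ (sd P M).card ≤ 2 ^ d := by
  classical
  rw [← card_fix (sd P M) (fun i => decide (i ∉ P))]
  refine Nat.mul_le_mul_right _ (card_le_card fun s hs => ?_)
  rw [mem_filter] at hs ⊢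
  refine ⟨mem_univ s, fun i hi => ?_⟩
  by_contra hne
  have hiN : i ∈ univ.filter (fun i => if s i then i ∈ P else i ∈ M) := by
    rw [mem_filter]
    refine ⟨mem_univ i, ?_⟩
    unfold sd at hi
    rw [mem_union, mem_sdiff, mem_sdiff] at hi
    rcases hi with hi | hi
    · have : s i = true := by
        by_contra h
        apply hne
        simp only [Bool.not_eq_true] at h
        rw [h]
        simp [hi.1]
      rw [this]; simpa using hi.1
    · have : s i = false := by
        by_contra h
        apply hne
        simp only [Bool.not_eq_false] at h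
        rw [h]
        simp [hi.2]
      rw [this]; simpa using hi.1
  have hni : i ∉ P ∩ M := by
    intro h
    rw [mem_inter] at h
    unfold sd at hi
    rw [mem_union, mem_sdiff, mem_sdiff] at hi
    rcases hi with hi | hi
    · exact hi.2 h.2
    · exact hi.2 h.1
  have hsub : insert i (P ∩ M) ⊆ univ.filter (fun i => if s i then i ∈ P else i ∈ M) := by
    refine insert_subset hiN fun j hj => ?_
    rw [mem_inter] at hj
    rw [mem_filter]
    refine ⟨mem_univ j, ?_⟩
    split_ifs
    · exact hj.1
    · exact hj.2
  have h1 := card_le_card hsub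
  rw [card_insert_of_notMem hni] at h1
  have h2 := hs.2
  unfold nn at h2
  omega

/-- for `P ∩ M = ∅`, the sign vectors with `nn = 1` -/
theorem count_one (P M : Finset (Fin d)) (h0 : (P ∩ M).card = 0) :
    (univ.filter (fun s => nn P M s = 1)).card * 2 ^ (sd P M).card ≤ (sd P M).card * 2 ^ d := by
  classical
  set f : Fin d → Bool := fun i => decide (i ∉ P) with hf
  set F : Fin d → Finset (Fin d → Bool) := fun j =>
    univ.filter (fun s : Fin d → Bool => ∀ i ∈ sd P M, s i = (if i = j then !(f i) else f i))
    with hF
  have hsub : (univ.filter (fun s => nn P M s = 1)) ⊆ (sd P M).biUnion F := by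
    intro s hs
    rw [mem_filter] at hs
    have h1 := hs.2
    unfold nn at h1
    obtain ⟨j, hj⟩ := card_eq_one.1 h1
    have hmem : ∀ i, (if s i then i ∈ P else i ∈ M) ↔ i = j := by
      intro i
      have h2 : i ∈ univ.filter (fun i => if s i then i ∈ P else i ∈ M) ↔ i ∈ ({j} : Finset (Fin d)) := by
        rw [hj]
      rw [mem_filter, mem_singleton] at h2
      simpa using h2
    have hPM : ∀ i, i ∈ P → i ∈ M → False := by
      intro i h2 h3
      have : i ∈ P ∩ M := mem_inter.2 ⟨h2, h3⟩
      rw [card_eq_zero] at h0
      rw [h0] at this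
      simp at this
    rw [mem_biUnion]
    refine ⟨j, ?_, ?_⟩
    · have h2 := (hmem j).2 rfl
      unfold sd
      rw [mem_union, mem_sdiff, mem_sdiff]
      split_ifs at h2 with h3
      · exact Or.inl ⟨h2, fun h => hPM j h2 h⟩
      · exact Or.inr ⟨h2, fun h => hPM j h h2⟩
    · rw [hF]
      simp only
      rw [mem_filter]
      refine ⟨mem_univ s, fun i hi => ?_⟩
      have h2 := hmem i
      unfold sd at hi
      rw [mem_union, mem_sdiff, mem_sdiff] at hi
      by_cases hij : i = j
      · rw [if_pos hij]
        have h3 := h2.2 hij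
        split_ifs at h3 with h4
        · rw [h4, hf]; simp [h3]
        · have h5 : i ∉ P := fun h => hPM i h h3
          simp only [Bool.not_eq_true] at h4
          rw [h4, hf]; simp [h5]
      · rw [if_neg hij]
        rcases hi with hi | hi
        · have h4 : s i = false := by
            by_contra h
            simp only [Bool.not_eq_false] at h
            apply hij
            apply h2.1
            rw [if_pos h]
            exact hi.1
          rw [h4, hf]; simp [hi.1]
        · have h4 : s i = true := by
            by_contra h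
            apply hij
            apply h2.1
            rw [if_neg h]
            exact hi.1
          rw [h4, hf]; simp [hi.2]
  calc (univ.filter (fun s => nn P M s = 1)).card * 2 ^ (sd P M).card
      ≤ (∑ j ∈ sd P M, (F j).card) * 2 ^ (sd P M).card :=
        Nat.mul_le_mul_right _ ((card_le_card hsub).trans card_biUnion_le)
    _ = ∑ _j ∈ sd P M, 2 ^ d := by
        rw [sum_mul]
        refine sum_congr rfl fun j _ => ?_
        exact card_fix (sd P M) (fun i => if i = j then !(f i) else f i)
    _ = (sd P M).card * 2 ^ d := by rw [sum_const, smul_eq_mul]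

end Pool.Agent.MP1a3405.UB
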