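import Mathlib

/-!
# MP_1a3405_co, upper bound, token lemma (C')

`G` a graph whose vertices have coordinates `c : V → Fin d → ℤ`, every edge is a unit step.
`outd G c S u` = the set of directions `i` in which `u` has a neighbour in `S` at `c u + e_i`.

Theorem `tok`: if `S` is connected, `x, y ∈ S`, `w ≥ 0` on `S`, `w u ≥ 2` if `outd u = ∅`,
`w u ≥ 1` if `outd u` has one element, and `d * w u ≥ 2 (d - 1)` if moreover `u ≠ x, y`, then there
is a walk in `S` from `x` to `y` of length `≤ ∑_{u ∈ S} w u - 2`.
-/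

namespace Pool.Agent.MP1a3405.UB

set_option linter.unusedSectionVars false

open Finset Relation

variable {V : Type*} [DecidableEq V] {d : ℕ}

/-- every edge of `G` is a unit step of the coordinates -/
def Lat (G : SimpleGraph V) (c : V → Fin d → ℤ) : Prop :=
  ∀ u v, G.Adj u v → ∃ i, c v = c u + Pi.single i 1 ∨ c u = c v + Pi.single i 1

/-- `u` and `v` are joined by a walk inside `S` -/
def Rch (G : SimpleGraph V) (S : Finset V) (u v : V) : Prop :=
  ∃ p : G.Walk u v, ∀ z ∈ p.support, z ∈ S

/-- `S` is connected -/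
def Conn (G : SimpleGraph V) (S : Finset V) : Prop := ∀ u ∈ S, ∀ v ∈ S, Rch G S u v

/-- a step up in direction `i` inside `S` -/
def Ou (G : SimpleGraph V) (c : V → Fin d → ℤ) (S : Finset V) (i : Fin d) (a b : V) : Prop :=
  a ∈ S ∧ b ∈ S ∧ G.Adj a b ∧ c b = c a + Pi.single i 1

/-- the directions of the out-edges of `u` inside `S` -/
noncomputable def outd (G : SimpleGraph V) (c : V → Fin d → ℤ) (S : Finset V) (u : V) :
    Finset (Fin d) := by
  classical exact univ.filter (fun i => ∃ v, Ou G c S i u v)

variable {G : SimpleGraph V} {c : V → Fin d → ℤ} {S : Finset V}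

theorem mem_outd {u : V} {i : Fin d} : i ∈ outd G c S u ↔ ∃ v, Ou G c S i u v := by
  classical
  unfold outd
  simp

/-! ### reachability inside `S` -/

theorem Rch.refl {u : V} (hu : u ∈ S) : Rch G S u u :=
  ⟨SimpleGraph.Walk.nil, by intro z hz; simp at hz; rw [hz]; exact hu⟩

theorem Rch.symm {u v : V} (h : Rch G S u v) : Rch G S v u := by
  obtain ⟨p, hp⟩ := h
  exact ⟨p.reverse, fun z hz => hp z (by simpa using hz)⟩

theorem Rch.trans {u v w : V} (h : Rch G S u v) (h' : Rch G S v w) : Rch G S u w := by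
  obtain ⟨p, hp⟩ := h
  obtain ⟨q, hq⟩ := h'
  refine ⟨p.append q, fun z hz => ?_⟩
  rw [SimpleGraph.Walk.mem_support_append_iff] at hz
  exact hz.elim (hp z) (hq z)

theorem Rch.adj {u v : V} (h : G.Adj u v) (hu : u ∈ S) (hv : v ∈ S) : Rch G S u v := by
  refine ⟨SimpleGraph.Walk.cons h SimpleGraph.Walk.nil, fun z hz => ?_⟩
  simp at hz
  rcases hz with rfl | rfl
  · exact hu
  · exact hv

theorem Rch.left {u v : V} (h : Rch G S u v) : u ∈ S := by
  obtain ⟨p, hp⟩ := h
  exact hp u p.start_mem_support

theorem Rch.right {u v : V} (h : Rch G S u v) : v ∈ S := by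
  obtain ⟨p, hp⟩ := h
  exact hp v p.end_mem_support

theorem Rch.mono {T : Finset V} (hST : S ⊆ T) {u v : V} (h : Rch G S u v) : Rch G T u v := by
  obtain ⟨p, hp⟩ := h
  exact ⟨p, fun z hz => hST (hp z hz)⟩

/-- the component of `x` in `S` -/
noncomputable def comp (G : SimpleGraph V) (S : Finset V) (x : V) : Finset V := by
  classical exact S.filter (fun u => Rch G S x u)

theorem mem_comp {x u : V} : u ∈ comp G S x ↔ Rch G S x u := by
  classical
  unfold comp
  rw [mem_filter]
  exact ⟨fun h => h.2, fun h => ⟨h.right, h⟩⟩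

theorem comp_subset (x : V) : comp G S x ⊆ S := fun _ h => (mem_comp.1 h).right

theorem conn_comp (x : V) : Conn G (comp G S x) := by
  have key : ∀ u, Rch G S x u → Rch G (comp G S x) x u := by
    rintro u ⟨p, hp⟩
    refine ⟨p, fun z hz => mem_comp.2 ?_⟩
    refine ⟨p.takeUntil z hz, fun z' hz' => hp z' ?_⟩
    exact p.support_takeUntil_subset_support hz hz'
  intro u hu v hv
  exact (key u (mem_comp.1 hu)).symm.trans (key v (mem_comp.1 hv))

/-- the last vertex before the first visit of `v` -/
theorem exists_last {x v : V} (h : Rch G S x v) (hne : x ≠ v) :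
    ∃ a, G.Adj a v ∧ Rch G (S.erase v) x a := by
  obtain ⟨p, hp⟩ := h
  induction p with
  | nil => exact absurd rfl hne
  | @cons u b v hub p' ih =>
    have hu : u ∈ S := hp u (by simp)
    by_cases hb : b = v
    · subst hb
      exact ⟨u, hub, Rch.refl (mem_erase.2 ⟨hne, hu⟩)⟩
    · obtain ⟨a, ha, hra⟩ := ih hb (fun z hz => hp z (by simp [hz]))
      exact ⟨a, ha, (Rch.adj hub (mem_erase.2 ⟨hne, hu⟩) hra.left).trans hra⟩

/-! ### monotone paths -/

/-- `b` is above `a`: there is a monotone path in `S` -/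
def Le (G : SimpleGraph V) (c : V → Fin d → ℤ) (S : Finset V) (a b : V) : Prop :=
  ReflTransGen (fun a b => ∃ i, Ou G c S i a b) a b

theorem Le.coord {a b : V} (h : Le G c S a b) (i : Fin d) : c a i ≤ c b i := by
  induction h with
  | refl => exact le_refl _
  | @tail b b' _ hb ih =>
    obtain ⟨j, _, _, _, hj⟩ := hb
    rw [hj]
    have : (0 : ℤ) ≤ Pi.single (M := fun _ => ℤ) j 1 i := by
      by_cases hij : i = j
      · subst hij; simp
      · simp [Pi.single_eq_of_ne hij]
    simp only [Pi.add_apply]
    linarith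

theorem Le.mem_right {a b : V} (h : Le G c S a b) (ha : a ∈ S) : b ∈ S := by
  induction h with
  | refl => exact ha
  | tail _ hb _ =>
    obtain ⟨j, _, hb2, _, _⟩ := hb
    exact hb2

theorem Le.step {a b b' : V} {i : Fin d} (h : Le G c S a b) (h' : Ou G c S i b b') :
    Le G c S a b' := ReflTransGen.tail h ⟨i, h'⟩

/-- the set of the vertices above `z` -/
noncomputable def up (G : SimpleGraph V) (c : V → Fin d → ℤ) (S : Finset V) (z : V) :
    Finset V := by
  classical exact S.filter (fun u => Le G c S z u)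

theorem mem_up {z u : V} : u ∈ up G c S z ↔ u ∈ S ∧ Le G c S z u := by
  classical
  unfold up
  rw [mem_filter]

/-- the height -/
def ht (c : V → Fin d → ℤ) (u : V) : ℤ := ∑ i, c u i

theorem ht_step {a b : V} {i : Fin d} (h : Ou G c S i a b) : ht c b = ht c a + 1 := by
  obtain ⟨_, _, _, h4⟩ := h
  unfold ht
  rw [h4]
  simp only [Pi.add_apply, sum_add_distrib]
  congr 1
  rw [Finset.sum_eq_single i]
  · simp
  · intro b _ hb
    exact Pi.single_eq_of_ne hb _
  · intro h; exact absurd (mem_univ i) h

/-- the token of a step in direction `i` from `z` -/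
theorem exists_token {z : V} (hz : z ∈ S) (i : Fin d) :
    ∃ u ∈ up G c S z, c u i = c z i ∧ outd G c S u ⊆ {i} := by
  classical
  set T := (up G c S z).filter (fun u => c u i = c z i) with hT
  have hzT : z ∈ T := by
    rw [hT, mem_filter, mem_up]
    exact ⟨⟨hz, ReflTransGen.refl⟩, rfl⟩
  obtain ⟨u, hu, hmax⟩ := T.exists_max_image (ht c) ⟨z, hzT⟩
  rw [hT, mem_filter] at hu
  refine ⟨u, hu.1, hu.2, fun j hj => ?_⟩
  rw [mem_outd] at hj
  obtain ⟨v, hv⟩ := hj
  by_contra hji
  rw [mem_singleton] at hji
  have hvT : v ∈ T := by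
    rw [hT, mem_filter, mem_up]
    refine ⟨⟨hv.2.1, (mem_up.1 hu.1).2.step hv⟩, ?_⟩
    rw [hv.2.2.2, ← hu.2]
    have : (Pi.single (M := fun _ => ℤ) j 1) i = 0 := Pi.single_eq_of_ne (Ne.symm hji) _
    simp [this]
  have := hmax v hvT
  rw [ht_step hv] at this
  omega

/-- a sink above `z` -/
theorem exists_sink {z : V} (hz : z ∈ S) : ∃ u ∈ up G c S z, outd G c S u = ∅ := by
  classical
  obtain ⟨u, hu, hmax⟩ := (up G c S z).exists_max_image (ht c) ⟨z, mem_up.2 ⟨hz, ReflTransGen.refl⟩⟩
  refine ⟨u, hu, ?_⟩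
  rw [Finset.eq_empty_iff_forall_notMem]
  intro j hj
  rw [mem_outd] at hj
  obtain ⟨v, hv⟩ := hj
  have hvT : v ∈ up G c S z := mem_up.2 ⟨hv.2.1, (mem_up.1 hu).2.step hv⟩
  have := hmax v hvT
  rw [ht_step hv] at this
  omega

/-- a source below `u` -/
theorem exists_source {u : V} (hu : u ∈ S) :
    ∃ σ ∈ S, Le G c S σ u ∧ ∀ i a, ¬ Ou G c S i a σ := by
  classical
  set T := S.filter (fun z => Le G c S z u) with hT
  have huT : u ∈ T := by
    rw [hT, mem_filter]
    exact ⟨hu, ReflTransGen.refl⟩
  obtain ⟨σ, hσ, hmin⟩ := T.exists_min_image (ht c) ⟨u, huT⟩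
  rw [hT, mem_filter] at hσ
  refine ⟨σ, hσ.1, hσ.2, fun i a ha => ?_⟩
  have haT : a ∈ T := by
    rw [hT, mem_filter]
    exact ⟨ha.1, ReflTransGen.head ⟨i, ha⟩ hσ.2⟩
  have := hmin a haT
  rw [ht_step ha] at this
  omega

theorem up_subset {z z' : V} (h : Le G c S z z') : up G c S z' ⊆ up G c S z := by
  intro u hu
  rw [mem_up] at hu ⊢
  exact ⟨hu.1, h.trans hu.2⟩

/-- telescoping along a monotone path -/
theorem tele (α : V → ℝ) (h0 : ∀ u ∈ S, 0 ≤ α u) {y : V} (hy : y ∈ S) (e : ℝ)
    (he : e ≤ ∑ u ∈ up G c S y, α u)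
    (hst : ∀ z z' i, Ou G c S i z z' → Le G c S z' y → ∀ u ∈ up G c S z, c u i = c z i →
      outd G c S u ⊆ {i} → 1 ≤ α u) {x : V} (hxy : Le G c S x y) :
    ∃ p : G.Walk x y, (∀ z ∈ p.support, z ∈ S) ∧ (p.length : ℝ) + e ≤ ∑ u ∈ up G c S x, α u := by
  induction hxy using ReflTransGen.head_induction_on with
  | refl =>
    refine ⟨SimpleGraph.Walk.nil, ?_, ?_⟩
    · intro z hz
      simp at hz
      rw [hz]; exact hy
    · simpa using he
  | @head z z' hzz' hz'y ih =>
    obtain ⟨p, hp, hL⟩ := ih
    obtain ⟨i, hi⟩ := hzz'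
    refine ⟨SimpleGraph.Walk.cons hi.2.2.1 p, ?_, ?_⟩
    · intro v hv
      rw [SimpleGraph.Walk.support_cons, List.mem_cons] at hv
      rcases hv with rfl | hv
      · exact hi.1
      · exact hp v hv
    · obtain ⟨u, hu, hui, huo⟩ := exists_token (c := c) (G := G) hi.1 i
      have h1 := hst z z' i hi hz'y u hu hui huo
      have hle : Le G c S z z' := ReflTransGen.single ⟨i, hi⟩
      have hnot : u ∉ up G c S z' := by
        intro hu'
        have h2 := (mem_up.1 hu').2.coord i
        rw [hi.2.2.2, hui] at h2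
        simp at h2
      have hsub : insert u (up G c S z') ⊆ up G c S z :=
        insert_subset hu (up_subset hle)
      have h3 : ∑ v ∈ insert u (up G c S z'), α v ≤ ∑ v ∈ up G c S z, α v :=
        sum_le_sum_of_subset_of_nonneg hsub fun v hv _ => h0 v (mem_up.1 hv).1
      rw [sum_insert hnot] at h3
      rw [SimpleGraph.Walk.length_cons]
      push_cast
      linarith

/-- every edge is a step up in one of the two directions -/
theorem Lat.ou (hL : Lat G c) {u v : V} (h : G.Adj u v) (hu : u ∈ S) (hv : v ∈ S) :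
    ∃ i, Ou G c S i u v ∨ Ou G c S i v u := by
  obtain ⟨i, hi | hi⟩ := hL u v h
  · exact ⟨i, Or.inl ⟨hu, hv, h, hi⟩⟩
  · exact ⟨i, Or.inr ⟨hv, hu, h.symm, hi⟩⟩

/-- the hypotheses on the weights -/
structure Wt (G : SimpleGraph V) (c : V → Fin d → ℤ) (w : V → ℝ) (S : Finset V) (x y : V) :
    Prop where
  nonneg : ∀ u ∈ S, 0 ≤ w u
  two : ∀ u ∈ S, outd G c S u = ∅ → 2 ≤ w u
  one : ∀ u ∈ S, (outd G c S u).card = 1 → 1 ≤ w u
  big : ∀ u ∈ S, (outd G c S u).card = 1 → u ≠ x → u ≠ y → 2 * ((d : ℝ) - 1) ≤ d * w u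

theorem Wt.symm {w : V → ℝ} {x y : V} (h : Wt G c w S x y) : Wt G c w S y x :=
  ⟨h.nonneg, h.two, h.one, fun u hu h1 h2 h3 => h.big u hu h1 h3 h2⟩

/-- the case of comparable end points -/
theorem tok_le {w : V → ℝ} {x y : V} (hy : y ∈ S) (hw : Wt G c w S x y)
    (h : Le G c S x y) :
    ∃ p : G.Walk x y, (∀ z ∈ p.support, z ∈ S) ∧ (p.length : ℝ) + 2 ≤ ∑ u ∈ S, w u := by
  classical
  obtain ⟨t, ht, hto⟩ := exists_sink (G := G) (c := c) hy
  have hcard : ∀ u ∈ S, ∀ i, outd G c S u ⊆ {i} → 1 ≤ w u := by
    intro u hu i hi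
    rcases Finset.subset_singleton_iff.1 hi with h1 | h1
    · exact le_trans (by norm_num) (hw.two u hu h1)
    · exact hw.one u hu (by rw [h1]; simp)
  obtain ⟨p, hp, hL⟩ := tele (G := G) (c := c) w hw.nonneg hy 2
    ((hw.two t (mem_up.1 ht).1 hto).trans
      (single_le_sum (f := w) (fun u hu => hw.nonneg u (mem_up.1 hu).1) ht))
    (fun z z' i _ _ u hu _ ho => hcard u (mem_up.1 hu).1 i ho) h
  refine ⟨p, hp, hL.trans ?_⟩
  exact sum_le_sum_of_subset_of_nonneg (fun u hu => (mem_up.1 hu).1) fun u hu _ => hw.nonneg u hu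

/-- the weight `α_k` -/
noncomputable def alp (G : SimpleGraph V) (c : V → Fin d → ℤ) (S U : Finset V) (k : Fin d)
    (u : V) : ℝ := by
  classical exact if (outd G c S u).card ≤ 1 ∧ ¬ (outd G c S u = {k} ∧ u ∈ U) then 1 else 0

theorem alp_nonneg (U : Finset V) (k : Fin d) (u : V) : 0 ≤ alp G c S U k u := by
  classical
  unfold alp
  split_ifs <;> norm_num

theorem alp_le (U : Finset V) (k : Fin d) (u : V) : alp G c S U k u ≤ 1 := by
  classical
  unfold alp
  split_ifs <;> norm_num

/-- one of the two paths to the meeting point `m` with minimal `k`-th coordinate -/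
theorem half {U : Finset V} {k : Fin d} {x m : V} (hm : m ∈ S) (hxm : Le G c S x m)
    (hmin : ∀ u ∈ U, c m k ≤ c u k) :
    ∃ p : G.Walk x m, (∀ z ∈ p.support, z ∈ S) ∧
      (p.length : ℝ) + 1 ≤ ∑ u ∈ up G c S x, alp G c S U k u := by
  classical
  obtain ⟨t, ht, hto⟩ := exists_sink (G := G) (c := c) hm
  refine tele (G := G) (c := c) (alp G c S U k) (fun u _ => alp_nonneg U k u) hm 1 ?_ ?_ hxm
  · have h1 : alp G c S U k t = 1 := by
      unfold alp
      rw [if_pos]
      refine ⟨by rw [hto]; simp, fun h => ?_⟩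
      have := h.1
      rw [hto] at this
      exact absurd this.symm (singleton_ne_empty k)
    rw [← h1]
    exact single_le_sum (f := alp G c S U k) (fun u _ => alp_nonneg U k u) ht
  · intro z z' i hi hz'm u hu hui huo
    unfold alp
    rw [if_pos]
    refine ⟨(card_le_card huo).trans (by simp), fun h => ?_⟩
    have hik : k = i := by
      have := h.1 ▸ huo
      simpa using this
    subst hik
    have h1 := hmin u h.2
    have h2 := hz'm.coord k
    rw [hi.2.2.2] at h2
    simp at h2
    omega

/-- the case of two sources -/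
theorem tok_two (hL : Lat G c) (hd : 1 ≤ d) {w : V → ℝ} {x y : V} (hx : x ∈ S) (hy : y ∈ S)
    (hc : Conn G S) (hw : Wt G c w S x y) (hxy : ¬ Le G c S x y) (hyx : ¬ Le G c S y x)
    (hsrc : ∀ u ∈ S, Le G c S x u ∨ Le G c S y u) :
    ∃ p : G.Walk x y, (∀ z ∈ p.support, z ∈ S) ∧ (p.length : ℝ) + 2 ≤ ∑ u ∈ S, w u := by
  classical
  set U := up G c S x ∩ up G c S y with hU
  have hUne : U.Nonempty := by
    -- walk from `x` to `y`, the first edge leaving `up x`
    obtain ⟨p, hp⟩ := hc x hx y hy
    have key : ∀ (a b : V) (q : G.Walk a b), (∀ z ∈ q.support, z ∈ S) → Le G c S x a →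
        ¬ Le G c S x b → U.Nonempty := by
      intro a b q
      induction q with
      | nil => intro _ h1 h2; exact absurd h1 h2
      | @cons a a' b haa' q ih =>
        intro hq ha hb
        by_cases ha' : Le G c S x a'
        · exact ih (fun z hz => hq z (by simp [hz])) ha' hb
        · have haS : a ∈ S := hq a (by simp)
          have ha'S : a' ∈ S := hq a' (by simp)
          have hya' : Le G c S y a' := (hsrc a' ha'S).resolve_left ha'
          obtain ⟨i, hi | hi⟩ := hL.ou haa' haS ha'S
          · exact absurd (ha.step hi) ha'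
          · exact ⟨a, mem_inter.2 ⟨mem_up.2 ⟨haS, ha⟩, mem_up.2 ⟨haS, hya'.step hi⟩⟩⟩
    exact key x y p hp ReflTransGen.refl hxy
  -- one walk for each direction
  have hk : ∀ k : Fin d, ∃ p : G.Walk x y, (∀ z ∈ p.support, z ∈ S) ∧
      (p.length : ℝ) + 2 ≤ ∑ u ∈ up G c S x, alp G c S U k u +
        ∑ u ∈ up G c S y, alp G c S U k u := by
    intro k
    obtain ⟨m, hm, hmin⟩ := U.exists_min_image (fun u => c u k) hUne
    rw [hU, mem_inter, mem_up, mem_up] at hm
    obtain ⟨p, hp, hpl⟩ := half (U := U) (k := k) hm.1.1 hm.1.2 hmin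
    obtain ⟨q, hq, hql⟩ := half (U := U) (k := k) hm.1.1 hm.2.2 hmin
    refine ⟨p.append q.reverse, fun z hz => ?_, ?_⟩
    · rw [SimpleGraph.Walk.mem_support_append_iff] at hz
      exact hz.elim (hp z) (fun h => hq z (by simpa using h))
    · rw [SimpleGraph.Walk.length_append, SimpleGraph.Walk.length_reverse]
      push_cast
      linarith
  -- pointwise comparison
  set a : V → ℝ := fun u => if Le G c S x u then 1 else 0 with ha
  set b : V → ℝ := fun u => if Le G c S y u then 1 else 0 with hb
  have hsumx : ∀ k, ∑ u ∈ up G c S x, alp G c S U k u = ∑ u ∈ S, a u * alp G c S U k u := by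
    intro k
    unfold up
    rw [sum_filter]
    refine sum_congr rfl fun u _ => ?_
    simp only [ha]
    split_ifs <;> simp
  have hsumy : ∀ k, ∑ u ∈ up G c S y, alp G c S U k u = ∑ u ∈ S, b u * alp G c S U k u := by
    intro k
    unfold up
    rw [sum_filter]
    refine sum_congr rfl fun u _ => ?_
    simp only [hb]
    split_ifs <;> simp
  have hpt : ∀ u ∈ S, ∑ k : Fin d, (a u + b u) * alp G c S U k u ≤ d * w u := by
    intro u hu
    have ha0 : 0 ≤ a u := by simp only [ha]; split_ifs <;> norm_num
    have hb0 : 0 ≤ b u := by simp only [hb]; split_ifs <;> norm_num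
    have ha1 : a u ≤ 1 := by simp only [ha]; split_ifs <;> norm_num
    have hb1 : b u ≤ 1 := by simp only [hb]; split_ifs <;> norm_num
    have hd0 : (0 : ℝ) ≤ d := Nat.cast_nonneg d
    rw [← mul_sum]
    have hs1 : ∑ k : Fin d, alp G c S U k u ≤ d := by
      calc ∑ k : Fin d, alp G c S U k u ≤ ∑ _k : Fin d, (1 : ℝ) :=
            sum_le_sum fun k _ => alp_le U k u
        _ = d := by simp
    have hs0 : 0 ≤ ∑ k : Fin d, alp G c S U k u := sum_nonneg fun k _ => alp_nonneg U k u
    rcases Nat.lt_or_ge 1 (outd G c S u).card with h2 | h2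
    · have h3 : ∑ k : Fin d, alp G c S U k u = 0 := by
        refine sum_eq_zero fun k _ => ?_
        unfold alp
        rw [if_neg]
        intro h; omega
      rw [h3, mul_zero]
      exact mul_nonneg hd0 (hw.nonneg u hu)
    · rcases Nat.lt_or_ge (outd G c S u).card 1 with h4 | h4
      · have h5 : outd G c S u = ∅ := card_eq_zero.1 (by omega)
        have h6 := hw.two u hu h5
        calc (a u + b u) * ∑ k : Fin d, alp G c S U k u ≤ 2 * d :=
              mul_le_mul (by linarith) hs1 hs0 (by norm_num)
          _ ≤ d * w u := by nlinarith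
      · have h5 : (outd G c S u).card = 1 := by omega
        have h6 := hw.one u hu h5
        by_cases hxu : Le G c S x u
        · by_cases hyu : Le G c S y u
          · have huU : u ∈ U := mem_inter.2 ⟨mem_up.2 ⟨hu, hxu⟩, mem_up.2 ⟨hu, hyu⟩⟩
            have hux : u ≠ x := by rintro rfl; exact hyx hyu
            have huy : u ≠ y := by rintro rfl; exact hxy hxu
            have h7 := hw.big u hu h5 hux huy
            obtain ⟨i, hi⟩ := card_eq_one.1 h5
            have h8 : ∑ k : Fin d, alp G c S U k u = d - 1 := by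
              have h9 : ∀ k : Fin d, alp G c S U k u = 1 - (if k = i then 1 else 0) := by
                intro k
                unfold alp
                by_cases hki : k = i
                · subst hki
                  rw [if_neg (fun h => h.2 ⟨hi, huU⟩)]
                  simp
                · rw [if_pos, if_neg hki]
                  · norm_num
                  · refine ⟨h2, fun h => hki ?_⟩
                    have := h.1
                    rw [hi] at this
                    exact (singleton_injective this).symm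
              rw [sum_congr rfl fun k _ => h9 k, sum_sub_distrib]
              simp
            rw [h8]
            have hd1 : (0 : ℝ) ≤ d - 1 := by
              have : (1 : ℝ) ≤ d := by exact_mod_cast hd
              linarith
            calc (a u + b u) * ((d : ℝ) - 1) ≤ 2 * (d - 1) :=
                  mul_le_mul_of_nonneg_right (by linarith) hd1
              _ ≤ d * w u := h7
          · have : b u = 0 := by simp only [hb]; rw [if_neg hyu]
            rw [this, add_zero]
            calc a u * ∑ k : Fin d, alp G c S U k u ≤ 1 * d :=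
                  mul_le_mul ha1 hs1 hs0 (by norm_num)
              _ ≤ d * w u := by nlinarith
        · have : a u = 0 := by simp only [ha]; rw [if_neg hxu]
          rw [this, zero_add]
          calc b u * ∑ k : Fin d, alp G c S U k u ≤ 1 * d :=
                mul_le_mul hb1 hs1 hs0 (by norm_num)
            _ ≤ d * w u := by nlinarith
  have hsum : ∑ k : Fin d, (∑ u ∈ up G c S x, alp G c S U k u +
        ∑ u ∈ up G c S y, alp G c S U k u) ≤ ∑ _k : Fin d, ∑ u ∈ S, w u := by
    rw [sum_const, card_univ, Fintype.card_fin, nsmul_eq_mul, mul_sum]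
    calc ∑ k : Fin d, (∑ u ∈ up G c S x, alp G c S U k u + ∑ u ∈ up G c S y, alp G c S U k u)
        = ∑ k : Fin d, ∑ u ∈ S, (a u + b u) * alp G c S U k u := by
          refine sum_congr rfl fun k _ => ?_
          rw [hsumx, hsumy, ← sum_add_distrib]
          refine sum_congr rfl fun u _ => ?_
          ring
      _ = ∑ u ∈ S, ∑ k : Fin d, (a u + b u) * alp G c S U k u := sum_comm
      _ ≤ ∑ u ∈ S, d * w u := sum_le_sum hpt
  have : Nonempty (Fin d) := ⟨⟨0, hd⟩⟩
  obtain ⟨k, _, hk'⟩ := exists_le_of_sum_le univ_nonempty hsum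
  obtain ⟨p, hp, hpl⟩ := hk k
  exact ⟨p, hp, hpl.trans hk'⟩

/-- restricting to a component after the deletion of a source -/
theorem outd_comp {v z u : V} (hv : ∀ i a, ¬ Ou G c S i a v) (hu : u ∈ comp G (S.erase v) z) :
    outd G c (comp G (S.erase v) z) u = outd G c S u := by
  ext i
  rw [mem_outd, mem_outd]
  have hsub : comp G (S.erase v) z ⊆ S := (comp_subset z).trans (erase_subset v S)
  constructor
  · rintro ⟨b, hb⟩
    exact ⟨b, hsub hb.1, hsub hb.2.1, hb.2.2⟩
  · rintro ⟨b, hb⟩
    refine ⟨b, hu, ?_, hb.2.2⟩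
    have hbv : b ≠ v := by
      rintro rfl
      exact hv i u hb
    have huS := comp_subset z hu
    exact mem_comp.2 ((mem_comp.1 hu).trans (Rch.adj hb.2.2.1 huS (mem_erase.2 ⟨hbv, hb.2.1⟩)))

/-- the token lemma -/
theorem tok (hL : Lat G c) (hd : 1 ≤ d) (w : V → ℝ) : ∀ (n : ℕ) (S : Finset V), S.card = n →
    ∀ x y : V, x ∈ S → y ∈ S → Conn G S → Wt G c w S x y →
    ∃ p : G.Walk x y, (∀ z ∈ p.support, z ∈ S) ∧ (p.length : ℝ) + 2 ≤ ∑ u ∈ S, w u := by
  classical
  intro n
  induction n using Nat.strong_induction_on with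
  | _ n ih =>
    intro S hn x y hx hy hc hw
    by_cases hv : ∃ v ∈ S, v ≠ x ∧ v ≠ y ∧ ∀ i a, ¬ Ou G c S i a v
    · -- delete the source `v`
      obtain ⟨v, hvS, hvx, hvy, hsv⟩ := hv
      have hxe : x ∈ S.erase v := mem_erase.2 ⟨Ne.symm hvx, hx⟩
      have hye : y ∈ S.erase v := mem_erase.2 ⟨Ne.symm hvy, hy⟩
      have hsubC : ∀ z, comp G (S.erase v) z ⊆ S.erase v := fun z => comp_subset z
      have hcardC : ∀ z, (comp G (S.erase v) z).card < n := by
        intro z
        have h1 := card_le_card (hsubC z)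
        rw [card_erase_of_mem hvS] at h1
        have h2 : 0 < S.card := card_pos.2 ⟨v, hvS⟩
        omega
      have hSC : ∀ z, comp G (S.erase v) z ⊆ S := fun z => (hsubC z).trans (erase_subset v S)
      -- the hypotheses for a component, with new end points
      have hwC : ∀ z x' y', (∀ u ∈ comp G (S.erase v) z, (u = x ∨ u = y) → (u = x' ∨ u = y')) →
          Wt G c w (comp G (S.erase v) z) x' y' := by
        intro z x' y' hxy
        refine ⟨fun u hu => hw.nonneg u (hSC z hu), fun u hu h1 => ?_, fun u hu h1 => ?_,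
          fun u hu h1 h2 h3 => ?_⟩
        · rw [outd_comp hsv hu] at h1
          exact hw.two u (hSC z hu) h1
        · rw [outd_comp hsv hu] at h1
          exact hw.one u (hSC z hu) h1
        · rw [outd_comp hsv hu] at h1
          refine hw.big u (hSC z hu) h1 ?_ ?_
          · intro h; exact (hxy u hu (Or.inl h)).elim h2 h3
          · intro h; exact (hxy u hu (Or.inr h)).elim h2 h3
      have hxC : x ∈ comp G (S.erase v) x := mem_comp.2 (Rch.refl hxe)
      have hyC : y ∈ comp G (S.erase v) y := mem_comp.2 (Rch.refl hye)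
      by_cases hxy : Rch G (S.erase v) x y
      · -- same component
        obtain ⟨p, hp, hpl⟩ := ih _ (hcardC x) _ rfl x y hxC (mem_comp.2 hxy) (conn_comp x)
          (hwC x x y fun u _ h => h)
        refine ⟨p, fun z hz => hSC x (hp z hz), hpl.trans ?_⟩
        exact sum_le_sum_of_subset_of_nonneg (hSC x) fun u hu _ => hw.nonneg u hu
      · -- different components
        obtain ⟨a, hav, hxa⟩ := exists_last (hc x hx v hvS) (Ne.symm hvx)
        obtain ⟨b, hbv, hyb⟩ := exists_last (hc y hy v hvS) (Ne.symm hvy)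
        obtain ⟨p, hp, hpl⟩ := ih _ (hcardC x) _ rfl x a hxC (mem_comp.2 hxa) (conn_comp x)
          (hwC x x a fun u hu h => by
            rcases h with h | h
            · exact Or.inl h
            · subst h; exact absurd (mem_comp.1 hu) hxy)
        obtain ⟨q, hq, hql⟩ := ih _ (hcardC y) _ rfl y b hyC (mem_comp.2 hyb) (conn_comp y)
          (hwC y y b fun u hu h => by
            rcases h with h | h
            · subst h; exact absurd (mem_comp.1 hu).symm hxy
            · exact Or.inl h)
        have hdisj : Disjoint (comp G (S.erase v) x) (comp G (S.erase v) y) := by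
          rw [Finset.disjoint_left]
          intro u hu hu'
          exact hxy ((mem_comp.1 hu).trans (mem_comp.1 hu').symm)
        have hsum : ∑ u ∈ comp G (S.erase v) x, w u + ∑ u ∈ comp G (S.erase v) y, w u ≤
            ∑ u ∈ S, w u := by
          rw [← sum_union hdisj]
          exact sum_le_sum_of_subset_of_nonneg (union_subset (hSC x) (hSC y))
            fun u hu _ => hw.nonneg u hu
        refine ⟨(p.append (SimpleGraph.Walk.cons hav SimpleGraph.Walk.nil)).append
          (q.append (SimpleGraph.Walk.cons hbv SimpleGraph.Walk.nil)).reverse, ?_, ?_⟩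
        · intro z hz
          rw [SimpleGraph.Walk.mem_support_append_iff, SimpleGraph.Walk.support_reverse,
            List.mem_reverse, SimpleGraph.Walk.mem_support_append_iff,
            SimpleGraph.Walk.mem_support_append_iff] at hz
          simp only [SimpleGraph.Walk.support_cons, SimpleGraph.Walk.support_nil, List.mem_cons,
            List.not_mem_nil, or_false] at hz
          rcases hz with (hz | rfl | rfl) | (hz | rfl | rfl)
          · exact hSC x (hp z hz)
          · exact hSC x (mem_comp.2 hxa)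
          · exact hvS
          · exact hSC y (hq z hz)
          · exact hSC y (mem_comp.2 hyb)
          · exact hvS
        · simp only [SimpleGraph.Walk.length_append, SimpleGraph.Walk.length_reverse,
            SimpleGraph.Walk.length_cons, SimpleGraph.Walk.length_nil]
          push_cast
          linarith
    · -- all sources are in `{x, y}`
      push Not at hv
      have hsrc : ∀ u ∈ S, Le G c S x u ∨ Le G c S y u := by
        intro u hu
        obtain ⟨σ, hσS, hσu, hσ⟩ := exists_source (G := G) (c := c) hu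
        by_cases h1 : σ = x
        · subst h1; exact Or.inl hσu
        by_cases h2 : σ = y
        · subst h2; exact Or.inr hσu
        obtain ⟨i, a, ha⟩ := hv σ hσS h1 h2
        exact absurd ha (hσ i a)
      by_cases hxy : Le G c S x y
      · exact tok_le hy hw hxy
      by_cases hyx : Le G c S y x
      · obtain ⟨p, hp, hpl⟩ := tok_le hx hw.symm hyx
        exact ⟨p.reverse, fun z hz => hp z (by simpa using hz), by
          rw [SimpleGraph.Walk.length_reverse]; exact hpl⟩
      exact tok_two hL hd hx hy hc hw hxy hyx hsrc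

end Pool.Agent.MP1a3405.UB
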